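import Mathlib

set_option autoImplicit false

/-!
Potentially partially positive words (MP_a41846_al): half-spaces of the Cayley tree of a free group,
crossing pairs of sets.
-/

namespace Pool.Agent.Helper43.TP

open FreeGroup

variable {α : Type}

/-- the inverse letter -/
def iv (x : α × Bool) : α × Bool := (x.1, !x.2)

@[simp] theorem iv_iv (x : α × Bool) : iv (iv x) = x := by
  obtain ⟨a, b⟩ := x; simp [iv]

theorem iv_ne (x : α × Bool) : iv x ≠ x := by
  obtain ⟨a, b⟩ := x; cases b <;> simp [iv]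

theorem ne_iv (x : α × Bool) : x ≠ iv x := fun h => iv_ne x h.symm

theorem iv_inj {x y : α × Bool} (h : iv x = iv y) : x = y := by
  have := congrArg iv h; simpa using this

/-- a letter as a group element -/
def lt (x : α × Bool) : FreeGroup α := FreeGroup.mk [x]

theorem lt_iv (x : α × Bool) : lt (iv x) = (lt x)⁻¹ := by
  obtain ⟨a, b⟩ := x
  unfold lt iv
  rw [FreeGroup.inv_mk]
  rfl

@[simp] theorem lt_mul_iv (x : α × Bool) : lt x * lt (iv x) = 1 := by rw [lt_iv]; simp
@[simp] theorem lt_iv_mul (x : α × Bool) : lt (iv x) * lt x = 1 := by rw [lt_iv]; simp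

theorem mk_cons (x : α × Bool) (l : List (α × Bool)) : FreeGroup.mk (x :: l) = lt x * FreeGroup.mk l := by
  unfold lt; rw [FreeGroup.mul_mk]; rfl

theorem ind_left {P : FreeGroup α → Prop} (h1 : P 1) (h : ∀ x g, P g → P (lt x * g)) : ∀ g, P g := by
  intro g
  induction g using Quot.inductionOn with
  | h l =>
    show P (FreeGroup.mk l)
    induction l with
    | nil => exact h1
    | cons x l ih => rw [mk_cons]; exact h x _ ih

theorem ind_right {P : FreeGroup α → Prop} (h1 : P 1) (h : ∀ g x, P g → P (g * lt x)) : ∀ g, P g := by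
  intro g
  have := ind_left (P := fun g => P g⁻¹) (by simpa using h1) (fun x g hg => by
    have h2 := h _ (iv x) hg
    rw [lt_iv] at h2
    simpa [mul_inv_rev] using h2) g⁻¹
  simpa using this

/-- left translate -/
def tr (g : FreeGroup α) (A : Set (FreeGroup α)) : Set (FreeGroup α) := {h | g⁻¹ * h ∈ A}

theorem mem_tr {g h : FreeGroup α} {A : Set (FreeGroup α)} : h ∈ tr g A ↔ g⁻¹ * h ∈ A := Iff.rfl

@[simp] theorem tr_one (A : Set (FreeGroup α)) : tr 1 A = A := by ext h; simp [tr]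

theorem tr_tr (g g' : FreeGroup α) (A : Set (FreeGroup α)) : tr g (tr g' A) = tr (g * g') A := by
  ext h; simp [tr, mul_assoc]

theorem tr_compl (g : FreeGroup α) (A : Set (FreeGroup α)) : tr g Aᶜ = (tr g A)ᶜ := by
  ext h; simp [tr]

/-- crossing: the four corners are non-empty -/
def Cr (A V : Set (FreeGroup α)) : Prop :=
  (∃ g, g ∈ A ∧ g ∈ V) ∧ (∃ g, g ∈ A ∧ g ∉ V) ∧ (∃ g, g ∉ A ∧ g ∈ V) ∧ (∃ g, g ∉ A ∧ g ∉ V)

theorem Cr.symm {A V : Set (FreeGroup α)} (h : Cr A V) : Cr V A := by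
  obtain ⟨⟨a, h1, h2⟩, ⟨b, h3, h4⟩, ⟨c, h5, h6⟩, ⟨d, h7, h8⟩⟩ := h
  exact ⟨⟨a, h2, h1⟩, ⟨c, h6, h5⟩, ⟨b, h4, h3⟩, ⟨d, h8, h7⟩⟩

theorem Cr_compl_left {A V : Set (FreeGroup α)} : Cr Aᶜ V ↔ Cr A V := by
  constructor
  · rintro ⟨⟨a, h1, h2⟩, ⟨b, h3, h4⟩, ⟨c, h5, h6⟩, ⟨d, h7, h8⟩⟩
    rw [Set.mem_compl_iff, not_not] at h5 h7
    exact ⟨⟨c, h5, h6⟩, ⟨d, h7, h8⟩, ⟨a, h1, h2⟩, ⟨b, h3, h4⟩⟩
  · rintro ⟨⟨a, h1, h2⟩, ⟨b, h3, h4⟩, ⟨c, h5, h6⟩, ⟨d, h7, h8⟩⟩
    exact ⟨⟨c, h5, h6⟩, ⟨d, h7, h8⟩, ⟨a, fun h => h h1, h2⟩, ⟨b, fun h => h h3, h4⟩⟩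

theorem Cr_comm {A V : Set (FreeGroup α)} : Cr A V ↔ Cr V A := ⟨Cr.symm, Cr.symm⟩

theorem Cr_compl_right {A V : Set (FreeGroup α)} : Cr A Vᶜ ↔ Cr A V := by
  rw [Cr_comm, Cr_compl_left, Cr_comm]

theorem Cr_tr {A V : Set (FreeGroup α)} (g : FreeGroup α) : Cr (tr g A) (tr g V) ↔ Cr A V := by
  constructor
  · rintro ⟨⟨a, h1, h2⟩, ⟨b, h3, h4⟩, ⟨c, h5, h6⟩, ⟨d, h7, h8⟩⟩
    exact ⟨⟨_, h1, h2⟩, ⟨_, h3, h4⟩, ⟨_, h5, h6⟩, ⟨_, h7, h8⟩⟩
  · rintro ⟨⟨a, h1, h2⟩, ⟨b, h3, h4⟩, ⟨c, h5, h6⟩, ⟨d, h7, h8⟩⟩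
    exact ⟨⟨g * a, by simpa [tr] using h1, by simpa [tr] using h2⟩,
      ⟨g * b, by simpa [tr] using h3, by simpa [tr] using h4⟩,
      ⟨g * c, by simpa [tr] using h5, by simpa [tr] using h6⟩,
      ⟨g * d, by simpa [tr] using h7, by simpa [tr] using h8⟩⟩

theorem Cr_tr_left {A V : Set (FreeGroup α)} (g : FreeGroup α) : Cr (tr g A) V ↔ Cr A (tr g⁻¹ V) := by
  rw [← Cr_tr g⁻¹, tr_tr]; simp

/-- finite coboundary -/
def FC (V : Set (FreeGroup α)) : Prop := ∀ u : FreeGroup α, {g | ¬ (g ∈ V ↔ g * u ∈ V)}.Finite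

theorem FC.compl {V : Set (FreeGroup α)} (h : FC V) : FC Vᶜ := by
  intro u
  refine (h u).subset ?_
  intro g hg
  simp only [Set.mem_ofPred_eq, Set.mem_compl_iff] at hg ⊢
  tauto

theorem FC.inter {V W : Set (FreeGroup α)} (h : FC V) (h' : FC W) : FC (V ∩ W) := by
  intro u
  refine ((h u).union (h' u)).subset ?_
  intro g hg
  simp only [Set.mem_ofPred_eq, Set.mem_inter_iff, Set.mem_union] at hg ⊢
  tauto

theorem FC.union {V W : Set (FreeGroup α)} (h : FC V) (h' : FC W) : FC (V ∪ W) := by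
  intro u
  refine ((h u).union (h' u)).subset ?_
  intro g hg
  simp only [Set.mem_ofPred_eq, Set.mem_union] at hg ⊢
  tauto

theorem FC.tr {V : Set (FreeGroup α)} (h : FC V) (g : FreeGroup α) : FC (tr g V) := by
  intro u
  refine ((h u).image (fun k => g * k)).subset ?_
  intro k hk
  refine ⟨g⁻¹ * k, ?_, by simp⟩
  simp only [Set.mem_ofPred_eq, mem_tr] at hk ⊢
  rwa [mul_assoc]

theorem FC.preim {V : Set (FreeGroup α)} (h : FC V) (θ : FreeGroup α ≃* FreeGroup α) : FC (θ ⁻¹' V) := by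
  intro u
  refine ((h (θ u)).image (fun k => θ.symm k)).subset ?_
  intro k hk
  refine ⟨θ k, ?_, by simp⟩
  simpa using hk

theorem FC_of_letters {V : Set (FreeGroup α)} (h : ∀ x : α × Bool, {g | ¬ (g ∈ V ↔ g * lt x ∈ V)}.Finite) :
    FC V := by
  intro u
  induction u using ind_right with
  | h1 => simp
  | h g x ih =>
    have h2 : ((fun k => k * g) ⁻¹' {g | ¬ (g ∈ V ↔ g * lt x ∈ V)}).Finite :=
      (h x).preimage (fun a _ b _ hab => mul_right_cancel hab)
    refine (ih.union h2).subset ?_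
    intro k hk
    simp only [Set.mem_ofPred_eq, Set.mem_union, Set.mem_preimage] at hk ⊢
    rw [← mul_assoc] at hk
    tauto

/-- closed under right multiplication by `w`, strictly -/
def Closed (V : Set (FreeGroup α)) (w : FreeGroup α) : Prop :=
  (∀ h ∈ V, h * w ∈ V) ∧ ∃ h, h ∉ V ∧ h * w ∈ V

theorem Closed.tr {V : Set (FreeGroup α)} {w : FreeGroup α} (h : Closed V w) (g : FreeGroup α) :
    Closed (tr g V) w := by
  refine ⟨fun k hk => ?_, ?_⟩
  · rw [mem_tr] at hk ⊢
    rw [← mul_assoc]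
    exact h.1 _ hk
  · obtain ⟨k, h1, h2⟩ := h.2
    exact ⟨g * k, by simpa [mem_tr] using h1, by simpa [mem_tr, mul_assoc] using h2⟩

theorem Closed.preim {V : Set (FreeGroup α)} {w : FreeGroup α} (h : Closed V w)
    (θ : FreeGroup α ≃* FreeGroup α) : Closed (θ ⁻¹' V) (θ.symm w) := by
  refine ⟨fun k hk => ?_, ?_⟩
  · rw [Set.mem_preimage] at hk ⊢
    have h2 := h.1 _ hk
    simpa using h2
  · obtain ⟨k, h1, h2⟩ := h.2
    exact ⟨θ.symm k, by simpa using h1, by simpa using h2⟩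

theorem Closed.compl {V : Set (FreeGroup α)} {w : FreeGroup α} (h : Closed V w) : Closed Vᶜ w⁻¹ := by
  refine ⟨fun k hk hk2 => hk ?_, ?_⟩
  · have := h.1 _ hk2
    simpa using this
  · obtain ⟨k, h1, h2⟩ := h.2
    exact ⟨k * w, fun h => h h2, by simpa using h1⟩

theorem Closed.ne {V : Set (FreeGroup α)} {w : FreeGroup α} (h : Closed V w) :
    (∃ g, g ∈ V) ∧ ∃ g, g ∉ V := by
  obtain ⟨k, h1, h2⟩ := h.2
  exact ⟨⟨_, h2⟩, ⟨_, h1⟩⟩

section
variable [DecidableEq α]

/-- the set of reduced words beginning with `x` -/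
def D (x : α × Bool) : Set (FreeGroup α) := {g | g.toWord.head? = some x}

theorem toWord_lt_mul (x : α × Bool) (g : FreeGroup α) :
    (lt x * g).toWord = if g.toWord.head? = some (iv x) then g.toWord.tail else x :: g.toWord := by
  have h : lt x * g = FreeGroup.mk (x :: g.toWord) := by
    rw [mk_cons, FreeGroup.mk_toWord]
  rw [h, FreeGroup.toWord_mk, FreeGroup.reduce.cons, FreeGroup.reduce_toWord]
  cases hg : g.toWord with
  | nil => simp
  | cons y l =>
    simp only [List.head?_cons, Option.some.injEq, List.tail_cons]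
    have : (x.1 = y.1 ∧ x.2 = !y.2) ↔ y = iv x := by
      obtain ⟨a, b⟩ := x
      obtain ⟨c, d⟩ := y
      unfold iv
      simp only [Prod.mk.injEq]
      constructor
      · rintro ⟨h1, h2⟩
        exact ⟨h1.symm, by rw [h2]; simp⟩
      · rintro ⟨h1, h2⟩
        exact ⟨h1.symm, by rw [h2]; simp⟩
    by_cases hy : y = iv x
    · rw [if_pos (this.2 hy), if_pos hy]
    · rw [if_neg (fun h => hy (this.1 h)), if_neg hy]

theorem one_notMem_D (x : α × Bool) : (1 : FreeGroup α) ∉ D x := by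
  unfold D; simp

theorem toWord_lt (x : α × Bool) : (lt x).toWord = [x] := by
  have := toWord_lt_mul x 1
  simpa using this

theorem lt_mem_D {x y : α × Bool} : lt x ∈ D y ↔ x = y := by
  unfold D; simp [toWord_lt]

theorem D_unique {x y : α × Bool} {g : FreeGroup α} (h : g ∈ D x) (h' : g ∈ D y) : x = y := by
  unfold D at h h'
  rw [Set.mem_ofPred_eq] at h h'
  rw [h] at h'
  exact Option.some.inj h'

theorem exists_D {g : FreeGroup α} (h : g ≠ 1) : ∃ x, g ∈ D x := by
  unfold D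
  cases hg : g.toWord with
  | nil => exact absurd (FreeGroup.toWord_eq_nil_iff.1 hg) h
  | cons x l => exact ⟨x, by simp [hg]⟩

/-- the basic property of half-spaces -/
theorem lt_mul_mem_D {x : α × Bool} {g : FreeGroup α} : lt x * g ∈ D x ↔ g ∉ D (iv x) := by
  unfold D
  rw [Set.mem_ofPred_eq, Set.mem_ofPred_eq, toWord_lt_mul]
  by_cases h : g.toWord.head? = some (iv x)
  · rw [if_pos h]
    simp only [h, not_true_eq_false, iff_false]
    intro h2
    have h3 := toWord_lt_mul (iv x) (lt x * g)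
    rw [← mul_assoc, lt_iv_mul, one_mul, toWord_lt_mul, if_pos h, iv_iv, if_pos h2] at h3
    -- g.toWord = g.toWord.tail.tail
    have h4 := congrArg List.length h3
    rw [List.length_tail, List.length_tail] at h4
    cases hg : g.toWord with
    | nil => rw [hg] at h; simp at h
    | cons a l => rw [hg] at h4; simp at h4; omega
  · rw [if_neg h]
    simp [h]

theorem lt_mul_mem_D' {x y : α × Bool} {g : FreeGroup α} (h : g ∈ D y) (hy : y ≠ iv x) :
    lt x * g ∈ D x :=
  lt_mul_mem_D.2 (fun h2 => hy (D_unique h h2))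

/-- decomposition of an element of a half-space -/
theorem mem_D_iff {x : α × Bool} {g : FreeGroup α} : g ∈ D x ↔ lt (iv x) * g ∉ D (iv x) := by
  rw [← lt_mul_mem_D, ← mul_assoc, lt_mul_iv, one_mul]

theorem length_lt_mul {x : α × Bool} {g : FreeGroup α} (h : g ∉ D (iv x)) :
    (lt x * g).toWord = x :: g.toWord := by
  have h' : ¬ g.toWord.head? = some (iv x) := h
  rw [toWord_lt_mul, if_neg h']

/-- induction along reduced words -/
theorem ind_D {P : FreeGroup α → Prop} (h1 : P 1) (h : ∀ x g, g ∉ D (iv x) → P g → P (lt x * g)) :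
    ∀ g, P g := by
  have key : ∀ n (g : FreeGroup α), g.toWord.length = n → P g := by
    intro n
    induction n with
    | zero =>
      intro g hg
      have : g = 1 := FreeGroup.toWord_eq_nil_iff.1 (List.length_eq_zero_iff.1 hg)
      rw [this]; exact h1
    | succ n ih =>
      intro g hg
      have hne : g ≠ 1 := by
        rintro rfl; simp at hg
      obtain ⟨x, hx⟩ := exists_D hne
      have hx2 := mem_D_iff.1 hx
      have e : g = lt x * (lt (iv x) * g) := by rw [← mul_assoc, lt_mul_iv, one_mul]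
      have hl := length_lt_mul hx2
      rw [← e] at hl
      rw [e]
      refine h x _ hx2 (ih _ ?_)
      rw [hl] at hg
      simpa using hg
  exact fun g => key _ g rfl

/-- passing to an adjacent vertex changes the half-space only across the edge -/
theorem adj {x z : α × Bool} {g : FreeGroup α} (h : ¬ (g ∈ D z ↔ g * lt x ∈ D z)) :
    (g = 1 ∧ x = z) ∨ (g = lt z ∧ x = iv z) := by
  revert z
  induction g using ind_D with
  | h1 =>
    intro z h
    left
    refine ⟨rfl, ?_⟩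
    by_contra hx
    apply h
    rw [one_mul, lt_mem_D]
    exact ⟨fun h => absurd h (one_notMem_D z), fun h => absurd h hx⟩
  | h y g hg ih =>
    intro z h
    have hy : lt y * g ∈ D y := lt_mul_mem_D.2 hg
    have hgx : g * lt x ∈ D (iv y) → g = 1 ∧ x = iv y := by
      intro h2
      have h3 : ¬ (g ∈ D (iv y) ↔ g * lt x ∈ D (iv y)) := fun h4 => hg (h4.2 h2)
      rcases ih h3 with h4 | ⟨h4, -⟩
      · exact h4
      · exfalso
        apply hg
        rw [h4]
        exact lt_mem_D.2 rfl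
    by_cases hz : y = z
    · subst hz
      have h2 : ¬ (lt y * g * lt x ∈ D y) := fun h3 => h ⟨fun _ => h3, fun _ => hy⟩
      rw [mul_assoc, lt_mul_mem_D, not_not] at h2
      obtain ⟨h3, h4⟩ := hgx h2
      right
      rw [h3, mul_one]
      exact ⟨rfl, h4⟩
    · exfalso
      have h2 : lt y * g ∉ D z := fun h3 => hz (D_unique hy h3)
      have h3 : lt y * g * lt x ∈ D z := by
        by_contra h4
        exact h ⟨fun h5 => absurd h5 h2, fun h5 => absurd h5 h4⟩
      by_cases h4 : g * lt x ∈ D (iv y)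
      · obtain ⟨h5, h6⟩ := hgx h4
        rw [h5, mul_one, h6, lt_mul_iv] at h3
        exact one_notMem_D z h3
      · have := lt_mul_mem_D.2 h4
        rw [← mul_assoc] at this
        exact hz (D_unique this h3)

theorem FC_D (z : α × Bool) : FC (D z) := by
  apply FC_of_letters
  intro x
  refine (Set.toFinite {1, lt z}).subset ?_
  intro g hg
  rcases adj hg with ⟨h, -⟩ | ⟨h, -⟩
  · left; exact h
  · right; exact h

end

end Pool.Agent.Helper43.TP
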