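import Pool.Agent.Helper43.TP.Basic

set_option autoImplicit false

/-!
Whitehead automorphisms and their effect on half-spaces.
-/

namespace Pool.Agent.Helper43.TP

variable {α : Type} [DecidableEq α]

/-- union of the half-spaces of the letters in `Z` -/
def St (Z : Set (α × Bool)) : Set (FreeGroup α) := {g | ∃ x ∈ Z, g ∈ D x}

theorem mem_St {Z : Set (α × Bool)} {x : α × Bool} {g : FreeGroup α} (h : g ∈ D x) : g ∈ St Z ↔ x ∈ Z := by
  constructor
  · rintro ⟨y, hy, hg⟩
    rw [D_unique h hg]; exact hy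
  · intro hx; exact ⟨x, hx, h⟩

theorem one_notMem_St (Z : Set (α × Bool)) : (1 : FreeGroup α) ∉ St Z := by
  rintro ⟨x, -, h⟩
  exact one_notMem_D x h

/-- abstract characterisation of half-spaces -/
theorem halfspace_char {t : α × Bool → FreeGroup α} {θ : FreeGroup α →* FreeGroup α}
    (hθ : ∀ x, θ (lt x) = t x) {C : α × Bool → Set (FreeGroup α)}
    (h1 : ∀ x, (1 : FreeGroup α) ∉ C x) (h2 : ∀ x y g, g ∈ C x → g ∈ C y → x = y)
    (h3 : ∀ x g, t x * g ∈ C x ↔ g ∉ C (iv x)) (g : FreeGroup α) :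
    (∀ x, g ∈ D x ↔ θ g ∈ C x) := by
  have key : ∀ g : FreeGroup α, ∀ x, g ∈ D x → θ g ∈ C x := by
    intro g
    induction g using ind_D with
    | h1 => intro x hx; exact absurd hx (one_notMem_D x)
    | h y g hg ih =>
      intro x hx
      have hy : lt y * g ∈ D y := lt_mul_mem_D.2 hg
      have := D_unique hy hx
      subst this
      rw [map_mul, hθ, h3]
      intro h4
      by_cases hg1 : g = 1
      · rw [hg1, map_one] at h4
        exact h1 _ h4
      · obtain ⟨z, hz⟩ := exists_D hg1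
        have := h2 _ _ _ (ih z hz) h4
        rw [this] at hz
        exact hg hz
  intro x
  refine ⟨key g x, fun h => ?_⟩
  by_cases hg1 : g = 1
  · rw [hg1, map_one] at h
    exact absurd h (h1 _)
  · obtain ⟨z, hz⟩ := exists_D hg1
    rw [h2 _ _ _ h (key g z hz)]
    exact hz

open Classical in
/-- the letters of the new basis -/
noncomputable def wt (Z : Set (α × Bool)) (d x : α × Bool) : FreeGroup α :=
  if x = d ∨ x = iv d then lt x
  else (if x ∈ Z then (lt d)⁻¹ else 1) * lt x * (if iv x ∈ Z then lt d else 1)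

theorem wt_iv (Z : Set (α × Bool)) (d x : α × Bool) : wt Z d (iv x) = (wt Z d x)⁻¹ := by
  unfold wt
  by_cases h : x = d ∨ x = iv d
  · have h' : iv x = d ∨ iv x = iv d := by
      rcases h with h | h
      · right; rw [h]
      · left; rw [h, iv_iv]
    rw [if_pos h, if_pos h', lt_iv]
  · have h' : ¬ (iv x = d ∨ iv x = iv d) := by
      rintro (h1 | h1)
      · apply h; right; rw [← h1, iv_iv]
      · apply h; left; exact iv_inj h1
    rw [if_neg h, if_neg h', iv_iv, lt_iv]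
    by_cases h1 : x ∈ Z <;> by_cases h2 : iv x ∈ Z <;> simp [h1, h2, mul_assoc]

open Classical in
/-- the letters of the inverse automorphism -/
noncomputable def wt' (Z : Set (α × Bool)) (d x : α × Bool) : FreeGroup α :=
  if x = d ∨ x = iv d then lt x
  else (if x ∈ Z then lt d else 1) * lt x * (if iv x ∈ Z then (lt d)⁻¹ else 1)

theorem wt'_iv (Z : Set (α × Bool)) (d x : α × Bool) : wt' Z d (iv x) = (wt' Z d x)⁻¹ := by
  unfold wt'
  by_cases h : x = d ∨ x = iv d
  · have h' : iv x = d ∨ iv x = iv d := by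
      rcases h with h | h
      · right; rw [h]
      · left; rw [h, iv_iv]
    rw [if_pos h, if_pos h', lt_iv]
  · have h' : ¬ (iv x = d ∨ iv x = iv d) := by
      rintro (h1 | h1)
      · apply h; right; rw [← h1, iv_iv]
      · apply h; left; exact iv_inj h1
    rw [if_neg h, if_neg h', iv_iv, lt_iv]
    by_cases h1 : x ∈ Z <;> by_cases h2 : iv x ∈ Z <;> simp [h1, h2, mul_assoc]

theorem lift_lt {G : Type} [Group G] (f : α × Bool → G) (hf : ∀ x, f (iv x) = (f x)⁻¹) (x : α × Bool) :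
    (FreeGroup.lift (fun a => f (a, true))) (lt x) = f x := by
  obtain ⟨a, b⟩ := x
  unfold lt
  cases b
  · rw [FreeGroup.lift_mk]
    have := hf (a, true)
    simp [iv] at this
    simp [this]
  · rw [FreeGroup.lift_mk]
    simp

theorem hom_ext_lt {G : Type} [Group G] {f g : FreeGroup α →* G} (h : ∀ x : α × Bool, f (lt x) = g (lt x)) :
    f = g := by
  apply FreeGroup.ext_hom
  intro a
  exact h (a, true)

noncomputable def wth (Z : Set (α × Bool)) (d : α × Bool) : FreeGroup α →* FreeGroup α :=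
  FreeGroup.lift (fun a => wt Z d (a, true))

noncomputable def wth' (Z : Set (α × Bool)) (d : α × Bool) : FreeGroup α →* FreeGroup α :=
  FreeGroup.lift (fun a => wt' Z d (a, true))

theorem wth_lt (Z : Set (α × Bool)) (d x : α × Bool) : wth Z d (lt x) = wt Z d x :=
  lift_lt _ (wt_iv Z d) x

theorem wth'_lt (Z : Set (α × Bool)) (d x : α × Bool) : wth' Z d (lt x) = wt' Z d x :=
  lift_lt _ (wt'_iv Z d) x

theorem wt_d (Z : Set (α × Bool)) (d : α × Bool) : wt Z d d = lt d := by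
  unfold wt; rw [if_pos (Or.inl rfl)]

theorem wt'_d (Z : Set (α × Bool)) (d : α × Bool) : wt' Z d d = lt d := by
  unfold wt'; rw [if_pos (Or.inl rfl)]

theorem wth_comp (Z : Set (α × Bool)) (d : α × Bool) : (wth Z d).comp (wth' Z d) = MonoidHom.id _ := by
  classical
  apply hom_ext_lt
  intro x
  rw [MonoidHom.comp_apply, wth'_lt, MonoidHom.id_apply]
  unfold wt'
  by_cases h : x = d ∨ x = iv d
  · rw [if_pos h, wth_lt]
    unfold wt
    rw [if_pos h]
  · rw [if_neg h, map_mul, map_mul, wth_lt]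
    have e : wt Z d x = (if x ∈ Z then (lt d)⁻¹ else 1) * lt x * (if iv x ∈ Z then lt d else 1) := by
      unfold wt; rw [if_neg h]
    rw [e]
    by_cases h1 : x ∈ Z <;> by_cases h2 : iv x ∈ Z <;> simp [h1, h2, mul_assoc, wth_lt, wt_d]

theorem wth'_comp (Z : Set (α × Bool)) (d : α × Bool) : (wth' Z d).comp (wth Z d) = MonoidHom.id _ := by
  classical
  apply hom_ext_lt
  intro x
  rw [MonoidHom.comp_apply, wth_lt, MonoidHom.id_apply]
  unfold wt
  by_cases h : x = d ∨ x = iv d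
  · rw [if_pos h, wth'_lt]
    unfold wt'
    rw [if_pos h]
  · rw [if_neg h, map_mul, map_mul, wth'_lt]
    have e : wt' Z d x = (if x ∈ Z then lt d else 1) * lt x * (if iv x ∈ Z then (lt d)⁻¹ else 1) := by
      unfold wt'; rw [if_neg h]
    rw [e]
    by_cases h1 : x ∈ Z <;> by_cases h2 : iv x ∈ Z <;> simp [h1, h2, mul_assoc, wth'_lt, wt'_d]

noncomputable def wte (Z : Set (α × Bool)) (d : α × Bool) : FreeGroup α ≃* FreeGroup α :=
  MonoidHom.toMulEquiv (wth Z d) (wth' Z d) (wth'_comp Z d) (wth_comp Z d)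

theorem wte_apply (Z : Set (α × Bool)) (d : α × Bool) (g : FreeGroup α) : wte Z d g = wth Z d g := rfl

open Classical in
/-- the half-spaces of the new basis -/
noncomputable def wC (Z : Set (α × Bool)) (d x : α × Bool) : Set (FreeGroup α) :=
  if x = d then St Z
  else if x = iv d then {g | lt d * g ∉ St Z}
  else if x ∈ Z then {g | lt d * g ∈ D x}
  else D x

theorem wC_d (Z : Set (α × Bool)) (d : α × Bool) : wC Z d d = St Z := by
  unfold wC; rw [if_pos rfl]

theorem wC_iv (Z : Set (α × Bool)) (d : α × Bool) : wC Z d (iv d) = {g | lt d * g ∉ St Z} := by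
  unfold wC; rw [if_neg (iv_ne d), if_pos rfl]

theorem wC_in (Z : Set (α × Bool)) {d x : α × Bool} (h1 : x ≠ d) (h2 : x ≠ iv d) (h3 : x ∈ Z) :
    wC Z d x = {g | lt d * g ∈ D x} := by
  unfold wC; rw [if_neg h1, if_neg h2, if_pos h3]

theorem wC_out (Z : Set (α × Bool)) {d x : α × Bool} (h1 : x ≠ d) (h2 : x ≠ iv d) (h3 : x ∉ Z) :
    wC Z d x = D x := by
  unfold wC; rw [if_neg h1, if_neg h2, if_neg h3]

theorem wte_D (Z : Set (α × Bool)) (d : α × Bool) (hd : d ∈ Z) (hd' : iv d ∉ Z) (g : FreeGroup α)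
    (x : α × Bool) : g ∈ D x ↔ wte Z d g ∈ wC Z d x := by
  classical
  rw [wte_apply]
  refine halfspace_char (wth_lt Z d) ?_ ?_ ?_ g x
  · intro x
    by_cases h1 : x = d
    · rw [h1, wC_d]; exact one_notMem_St Z
    by_cases h2 : x = iv d
    · rw [h2, wC_iv, Set.mem_ofPred_eq, not_not, mul_one]
      exact ⟨d, hd, lt_mem_D.2 rfl⟩
    by_cases h3 : x ∈ Z
    · rw [wC_in Z h1 h2 h3, Set.mem_ofPred_eq, mul_one, lt_mem_D]
      exact fun h => h1 h.symm
    · rw [wC_out Z h1 h2 h3]; exact one_notMem_D x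
  · -- all of them are disjoint: reconstruct `x` from `g`
    have key : ∀ x g, g ∈ wC Z d x →
        (x = d ∧ g ∈ St Z) ∨ (x = iv d ∧ g ∉ St Z ∧ lt d * g ∉ St Z) ∨
        (x ≠ d ∧ g ∉ St Z ∧ lt d * g ∈ St Z ∧ lt d * g ∈ D x) ∨
        (x ≠ iv d ∧ g ∉ St Z ∧ lt d * g ∈ D d ∧ g ∈ D x) := by
      intro x g hg
      by_cases h1 : x = d
      · left; rw [h1, wC_d] at hg; exact ⟨h1, hg⟩
      right
      have hdg : ∀ g : FreeGroup α, g ∈ St Z → lt d * g ∈ D d := by
        rintro g ⟨y, hy, hgy⟩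
        refine lt_mul_mem_D' hgy ?_
        rintro rfl
        exact hd' hy
      by_cases h2 : x = iv d
      · left
        rw [h2, wC_iv, Set.mem_ofPred_eq] at hg
        refine ⟨h2, fun h => hg ⟨d, hd, hdg g h⟩, hg⟩
      right
      by_cases h3 : x ∈ Z
      · left
        rw [wC_in Z h1 h2 h3, Set.mem_ofPred_eq] at hg
        exact ⟨h1, fun h => h1 (D_unique hg (hdg g h)), ⟨x, h3, hg⟩, hg⟩
      · right
        rw [wC_out Z h1 h2 h3] at hg
        exact ⟨h2, fun h => h3 ((mem_St hg).1 h), lt_mul_mem_D' hg h2, hg⟩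
    intro x y g hx hy
    rcases key x g hx with ⟨a1, a2⟩ | ⟨a1, a2, a3⟩ | ⟨a1, a2, a3, a4⟩ | ⟨a1, a2, a3, a4⟩ <;>
    rcases key y g hy with ⟨b1, b2⟩ | ⟨b1, b2, b3⟩ | ⟨b1, b2, b3, b4⟩ | ⟨b1, b2, b3, b4⟩
    · rw [a1, b1]
    · exact absurd a2 b2
    · exact absurd a2 b2
    · exact absurd a2 b2
    · exact absurd b2 a2
    · rw [a1, b1]
    · exact absurd b3 a3
    · exact absurd ⟨d, hd, b3⟩ a3
    · exact absurd b2 a2
    · exact absurd a3 b3
    · exact D_unique a4 b4
    · exact absurd (D_unique a4 b3) a1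
    · exact absurd b2 a2
    · exact absurd ⟨d, hd, a3⟩ b3
    · exact absurd (D_unique b4 a3) b1
    · exact D_unique a4 b4
  · intro x g
    by_cases h1 : x = d
    · rw [h1, wC_d, wt_d, wC_iv, Set.mem_ofPred_eq, not_not]
    by_cases h2 : x = iv d
    · rw [h2, wC_iv, iv_iv, wC_d, wt_iv, wt_d, Set.mem_ofPred_eq]
      simp
    have h1' : iv x ≠ iv d := fun h => h1 (iv_inj h)
    have h2' : iv x ≠ d := fun h => h2 (by rw [← h, iv_iv])
    have e : wt Z d x = (if x ∈ Z then (lt d)⁻¹ else 1) * lt x * (if iv x ∈ Z then lt d else 1) := by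
      unfold wt; rw [if_neg (by rintro (h | h) <;> contradiction)]
    have e2 : ∀ u : FreeGroup α, (if x ∈ Z then (lt d)⁻¹ else 1) * lt x * u ∈ wC Z d x ↔ u ∉ D (iv x) := by
      intro u
      by_cases h3 : x ∈ Z
      · rw [wC_in Z h1 h2 h3, if_pos h3, Set.mem_ofPred_eq, ← lt_mul_mem_D]
        simp [mul_assoc]
      · rw [wC_out Z h1 h2 h3, if_neg h3, one_mul, lt_mul_mem_D]
    rw [e, mul_assoc, e2]
    by_cases h4 : iv x ∈ Z
    · rw [wC_in Z h2' h1' h4, if_pos h4, Set.mem_ofPred_eq]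
    · rw [wC_out Z h2' h1' h4, if_neg h4, one_mul]

/-- Whitehead automorphisms -/
theorem whitehead (Z : Set (α × Bool)) (d : α × Bool) (hd : d ∈ Z) (hd' : iv d ∉ Z) :
    ∃ θ : FreeGroup α ≃* FreeGroup α, (∀ g, g ∈ D d ↔ θ g ∈ St Z) ∧
      ∀ x, x ≠ d → x ≠ iv d → ∃ u : FreeGroup α, ∀ g, g ∈ D x ↔ u * θ g ∈ D x := by
  refine ⟨wte Z d, fun g => ?_, fun x h1 h2 => ?_⟩
  · rw [wte_D Z d hd hd' g d, wC_d]
  · by_cases h3 : x ∈ Z
    · refine ⟨lt d, fun g => ?_⟩
      rw [wte_D Z d hd hd' g x, wC_in Z h1 h2 h3]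
      rfl
    · refine ⟨1, fun g => ?_⟩
      rw [wte_D Z d hd hd' g x, wC_out Z h1 h2 h3, one_mul]

end Pool.Agent.Helper43.TP
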