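import Pool.Agent.Helper43.TP.Uncross
import Pool.Agent.Helper43.TP.Whitehead

set_option autoImplicit false

/-!
From a nested closed set to a basis in which `w` is partially positive.
-/

namespace Pool.Agent.Helper43.TP

variable {α : Type} [DecidableEq α]

/-- `w` is partially positive with respect to some basis (the letter may have either sign) -/
def TPos (w : FreeGroup α) : Prop :=
  ∃ (θ : FreeGroup α ≃* FreeGroup α) (x : α × Bool), x ∈ (θ w).toWord ∧ iv x ∉ (θ w).toWord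

/-! ### the last step -/

theorem inv_notMem_D {p : List (α × Bool)} {y : α × Bool} (h : Red (p ++ [y])) :
    (FreeGroup.mk p)⁻¹ ∉ D y := by
  intro hc
  have h1 : (1 : FreeGroup α) ∈ tr (FreeGroup.mk p) (D y) := by rw [mem_tr, mul_one]; exact hc
  rw [mem_tr_D h] at h1
  simp at h1

theorem mem_D_mul_mk {z : α × Bool} {l : List (α × Bool)} (h1 : z ∉ l) (h2 : iv z ∉ l) :
    ∀ h : FreeGroup α, h ∈ D z ↔ h * FreeGroup.mk l ∈ D z := by
  induction l with
  | nil => intro h; rw [← FreeGroup.one_eq_mk, mul_one]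
  | cons x l ih =>
    intro h
    rw [List.mem_cons, not_or] at h1 h2
    rw [mk_cons, ← mul_assoc, ← ih h1.2 h2.2]
    by_contra hc
    rcases adj hc with ⟨-, h3⟩ | ⟨-, h3⟩
    · exact h1.1 h3.symm
    · exact h2.1 h3.symm

theorem pos_of_closed {z : α × Bool} {w : FreeGroup α} (h : Closed (D z) w) :
    z ∈ w.toWord ∧ iv z ∉ w.toWord := by
  have h2 : iv z ∉ w.toWord := by
    intro hm
    obtain ⟨p, q, hpq⟩ := List.append_of_mem hm
    have hr : Red (p ++ iv z :: q) := by rw [← hpq]; exact red_toWord w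
    have hw : w = FreeGroup.mk p * (lt (iv z) * FreeGroup.mk q) := by
      rw [← mk_cons, FreeGroup.mul_mk, ← hpq, FreeGroup.mk_toWord]
    have hr1 : Red (p ++ [iv z]) := by
      have : Red ((p ++ [iv z]) ++ q) := by simpa using hr
      exact red_append_left this
    have hr2 : Red (iv z :: q) := red_append_right hr
    have hg : lt z * (FreeGroup.mk p)⁻¹ ∈ D z := lt_mul_mem_D.2 (inv_notMem_D hr1)
    have hgw := h.1 _ hg
    have e : lt z * (FreeGroup.mk p)⁻¹ * w = FreeGroup.mk q := by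
      rw [hw, mul_assoc, inv_mul_cancel_left, ← mul_assoc, lt_mul_iv, one_mul]
    rw [e] at hgw
    rw [red_cons, iv_iv] at hr2
    apply hr2.2
    unfold D at hgw
    rw [Set.mem_ofPred_eq, hr2.1] at hgw
    exact hgw
  refine ⟨?_, h2⟩
  by_contra h1
  obtain ⟨k, hk1, hk2⟩ := h.2
  apply hk1
  rw [mem_D_mul_mk h1 h2 k, FreeGroup.mk_toWord]
  exact hk2

theorem mem_invRev {l : List (α × Bool)} {x : α × Bool} : x ∈ FreeGroup.invRev l ↔ iv x ∈ l := by
  unfold FreeGroup.invRev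
  rw [List.mem_reverse, List.mem_map]
  constructor
  · rintro ⟨y, hy, rfl⟩
    have : iv (y.1, !y.2) = y := by unfold iv; simp
    rw [this]; exact hy
  · intro h
    exact ⟨iv x, h, by unfold iv; simp⟩

/-! ### the index -/

open Classical in
noncomputable def ind (V : Set (FreeGroup α)) (h : FreeGroup α) : ℤ := if h ∈ V then 1 else 0

theorem ind_eq {V : Set (FreeGroup α)} {h k : FreeGroup α} (e : h ∈ V ↔ k ∈ V) : ind V h = ind V k := by
  unfold ind
  by_cases h1 : h ∈ V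
  · rw [if_pos h1, if_pos (e.1 h1)]
  · rw [if_neg h1, if_neg (fun h2 => h1 (e.2 h2))]

noncomputable def idx (V : Set (FreeGroup α)) (u : FreeGroup α) : ℤ := ∑ᶠ h, (ind V (h * u) - ind V h)

theorem idx_supp {V : Set (FreeGroup α)} (hV : FC V) (u : FreeGroup α) :
    (Function.support (fun h => ind V (h * u) - ind V h)).Finite := by
  refine (hV u).subset ?_
  intro h hh
  rw [Function.mem_support] at hh
  intro hc
  apply hh
  rw [ind_eq hc, sub_self]

theorem idx_mul {V : Set (FreeGroup α)} (hV : FC V) (u v : FreeGroup α) :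
    idx V (u * v) = idx V u + idx V v := by
  have h1 : idx V (u * v) = ∑ᶠ h, ((ind V (h * u * v) - ind V (h * u)) + (ind V (h * u) - ind V h)) := by
    unfold idx
    apply finsum_congr
    intro h
    rw [← mul_assoc]; ring
  have h2 : (Function.support (fun h => ind V (h * u * v) - ind V (h * u))).Finite := by
    have := (idx_supp hV v).preimage (f := fun h => h * u) (fun a _ b _ hab => mul_right_cancel hab)
    exact this
  rw [h1, finsum_add_distrib h2 (idx_supp hV u), add_comm]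
  congr 1
  unfold idx
  exact finsum_comp_equiv (Equiv.mulRight u) (f := fun h => ind V (h * v) - ind V h)

theorem idx_one (V : Set (FreeGroup α)) : idx V 1 = 0 := by
  unfold idx; simp

theorem idx_pos {V : Set (FreeGroup α)} (hV : FC V) {w : FreeGroup α} (h : Closed V w) : 0 < idx V w := by
  obtain ⟨k, hk1, hk2⟩ := h.2
  have hnn : ∀ h', 0 ≤ ind V (h' * w) - ind V h' := by
    intro h'
    unfold ind
    by_cases h1 : h' ∈ V
    · rw [if_pos h1, if_pos (h.1 _ h1)]; simp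
    · rw [if_neg h1]; split_ifs <;> simp
  have h1 : ind V (k * w) - ind V k ≤ idx V w :=
    single_le_finsum k (idx_supp hV w) hnn
  have h2 : ind V (k * w) - ind V k = 1 := by
    unfold ind
    rw [if_pos hk2, if_neg hk1]; simp
  omega

/-- `V` is a union of directions at the vertex `1`, up to the vertex itself -/
def Loc (V : Set (FreeGroup α)) : Prop := ∀ x, Pu (D x) V

theorem pu_iff {A V : Set (FreeGroup α)} (h : Pu A V) {g k : FreeGroup α} (hg : g ∈ A) (hk : k ∈ A) :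
    g ∈ V ↔ k ∈ V := by
  rcases h with h | h
  · exact ⟨fun _ => h k hk, fun _ => h g hg⟩
  · exact ⟨fun h1 => absurd h1 (h g hg), fun h1 => absurd h1 (h k hk)⟩

theorem idx_lt {V : Set (FreeGroup α)} (h : Loc V) (x : α × Bool) :
    idx V (lt x) = ind V (lt x) - ind V (lt (iv x)) := by
  classical
  unfold idx
  have hne : (1 : FreeGroup α) ≠ lt (iv x) := by
    intro h1
    have : lt (iv x) ∈ D (iv x) := lt_mem_D.2 rfl
    rw [← h1] at this
    exact one_notMem_D _ this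
  rw [finsum_eq_sum_of_support_subset (s := {1, lt (iv x)})]
  · rw [Finset.sum_pair hne, one_mul, lt_iv_mul]
    ring
  · intro g hg
    rw [Function.mem_support] at hg
    by_contra hc
    rw [Finset.coe_insert, Finset.coe_singleton, Set.mem_insert_iff, Set.mem_singleton_iff, not_or] at hc
    apply hg
    obtain ⟨y, hy⟩ := exists_D hc.1
    have h2 : g * lt x ∈ D y := by
      by_contra h3
      have h4 : ¬ (g ∈ D y ↔ g * lt x ∈ D y) := fun h5 => h3 (h5.1 hy)
      rcases adj h4 with ⟨h5, -⟩ | ⟨h5, h6⟩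
      · exact hc.1 h5
      · apply hc.2
        rw [h5, h6, iv_iv]
    rw [ind_eq (pu_iff (h y) hy h2), sub_self]

theorem exists_letter {V : Set (FreeGroup α)} (hV : FC V) {w : FreeGroup α} (h : Closed V w) (hL : Loc V) :
    ∃ z, lt z ∈ V ∧ lt (iv z) ∉ V := by
  by_contra hc
  push Not at hc
  have h1 : ∀ g, idx V g = 0 := by
    intro g
    induction g using ind_left with
    | h1 => exact idx_one V
    | h x g ih =>
      rw [idx_mul hV, ih, idx_lt hL, ind_eq (k := lt (iv x)), sub_self, add_zero]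
      refine ⟨hc x, fun h2 => ?_⟩
      have := hc _ h2
      rwa [iv_iv] at this
  have := idx_pos hV h
  rw [h1 w] at this
  exact lt_irrefl _ this

theorem loc_final {V : Set (FreeGroup α)} (hV : FC V) {w : FreeGroup α} (h : Closed V w) (hL : Loc V) :
    TPos w := by
  obtain ⟨z, hz1, hz2⟩ := exists_letter hV h hL
  by_cases h1 : (1 : FreeGroup α) ∈ V
  · -- use the complement
    have hS : ∀ g, g ∈ Vᶜ ↔ g ∈ St {x | lt x ∉ V} := by
      intro g
      by_cases hg : g = 1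
      · rw [hg]
        exact ⟨fun h2 => absurd h1 h2, fun h2 => absurd h2 (one_notMem_St _)⟩
      · obtain ⟨x, hx⟩ := exists_D hg
        rw [mem_St hx, Set.mem_compl_iff, pu_iff (hL x) hx (lt_mem_D.2 rfl)]
        rfl
    obtain ⟨θ, hθ, -⟩ := whitehead {x | lt x ∉ V} (iv z) hz2 (by
      rw [iv_iv, Set.mem_ofPred_eq, not_not]; exact hz1)
    have e : θ ⁻¹' Vᶜ = D (iv z) := by
      ext g
      rw [Set.mem_preimage, hS, hθ]
    have h2 := h.compl.preim θ
    rw [e] at h2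
    obtain ⟨h3, h4⟩ := pos_of_closed h2
    rw [map_inv, FreeGroup.toWord_inv, mem_invRev, iv_iv] at h3 h4
    exact ⟨θ.symm, z, h3, h4⟩
  · have hS : ∀ g, g ∈ V ↔ g ∈ St {x | lt x ∈ V} := by
      intro g
      by_cases hg : g = 1
      · rw [hg]
        exact ⟨fun h2 => absurd h2 h1, fun h2 => absurd h2 (one_notMem_St _)⟩
      · obtain ⟨x, hx⟩ := exists_D hg
        rw [mem_St hx, pu_iff (hL x) hx (lt_mem_D.2 rfl)]
        rfl
    obtain ⟨θ, hθ, -⟩ := whitehead {x | lt x ∈ V} z hz1 hz2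
    have e : θ ⁻¹' V = D z := by
      ext g
      rw [Set.mem_preimage, hS, hθ]
    have h2 := h.preim θ
    rw [e] at h2
    exact ⟨θ.symm, z, pos_of_closed h2⟩

/-! ### descent -/

theorem push_cross {Dd P V V' : Set (FreeGroup α)} (h0 : ∀ g ∈ P, g ∉ Dd) (h1 : ∀ g ∈ P, g ∈ V)
    (h2 : ∀ g, g ∉ Dd → g ∉ P → g ∉ V) (hc : Cr Dd V) (hn : ¬ Cr V' V) (hP : Cr P V') : Cr Dd V' := by
  obtain ⟨⟨a, a1, a2⟩, ⟨b, b1, b2⟩, ⟨c, c1, c2⟩, ⟨d, d1, d2⟩⟩ := hP
  obtain ⟨-, ⟨e, e1, e2⟩, -, -⟩ := hc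
  have k1 : ∃ g, g ∉ Dd ∧ g ∈ V' := ⟨a, h0 a a1, a2⟩
  have k2 : ∃ g, g ∉ Dd ∧ g ∉ V' := ⟨b, h0 b b1, b2⟩
  -- the corners of V', V
  have c11 : ∃ g, g ∈ V' ∧ g ∈ V := ⟨a, a2, h1 a a1⟩
  have c01 : ∃ g, g ∉ V' ∧ g ∈ V := ⟨b, b2, h1 b b1⟩
  by_cases c10 : ∃ g, g ∈ V' ∧ g ∉ V
  · have c00 : ¬ ∃ g, g ∉ V' ∧ g ∉ V := fun h => hn ⟨c11, c10, c01, h⟩
    push Not at c00
    -- V ∪ V' is everything
    refine ⟨⟨e, e1, ?_⟩, ⟨d, ?_, d2⟩, k1, k2⟩
    · by_contra h; exact e2 (c00 e h)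
    · by_contra h; exact h2 d h d1 (c00 d d2)
  · push Not at c10
    refine ⟨⟨c, ?_, c2⟩, ⟨e, e1, fun h => e2 (c10 e h)⟩, k1, k2⟩
    by_contra h; exact h2 c h c1 (c10 c c2)

theorem push_cross' {Dd P V V' : Set (FreeGroup α)} (q : Prop) (h0 : ∀ g ∈ P, g ∉ Dd)
    (h1 : ∀ g ∈ P, (g ∈ V ↔ q))
    (h2 : ∀ g, g ∉ Dd → g ∉ P → (g ∈ V ↔ ¬ q)) (hc : Cr Dd V) (hn : ¬ Cr V' V) (hP : Cr P V') :
    Cr Dd V' := by
  by_cases hq : q
  · exact push_cross h0 (fun g hg => (h1 g hg).2 hq) (fun g hg hg' hh => (h2 g hg hg').1 hh hq) hc hn hP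
  · refine push_cross (V := Vᶜ) h0 (fun g hg hh => hq ((h1 g hg).1 hh)) (fun g hg hg' hh => ?_)
      (by rwa [Cr_compl_right]) (by rwa [Cr_compl_right]) hP
    exact hh ((h2 g hg hg').2 hq)

theorem cr_preim {A V : Set (FreeGroup α)} (θ : FreeGroup α ≃* FreeGroup α) :
    Cr (θ ⁻¹' A) (θ ⁻¹' V) ↔ Cr A V := by
  constructor
  · rintro ⟨⟨a, a1, a2⟩, ⟨b, b1, b2⟩, ⟨c, c1, c2⟩, ⟨k, d1, d2⟩⟩
    exact ⟨⟨_, a1, a2⟩, ⟨_, b1, b2⟩, ⟨_, c1, c2⟩, ⟨_, d1, d2⟩⟩
  · rintro ⟨⟨a, a1, a2⟩, ⟨b, b1, b2⟩, ⟨c, c1, c2⟩, ⟨k, d1, d2⟩⟩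
    exact ⟨⟨θ.symm a, by simpa using a1, by simpa using a2⟩, ⟨θ.symm b, by simpa using b1, by simpa using b2⟩,
      ⟨θ.symm c, by simpa using c1, by simpa using c2⟩, ⟨θ.symm k, by simpa using d1, by simpa using d2⟩⟩

theorem kap_preim_lt [Finite α] {V : Set (FreeGroup α)} (hV : FC V) (θ : FreeGroup α ≃* FreeGroup α)
    {d e : α × Bool} (hde : e = d ∨ e = iv d) {Q : Set (FreeGroup α)} (hQ : ∀ g, g ∈ D e ↔ θ g ∈ Q)
    {u : α × Bool → FreeGroup α} (hu : ∀ x, x ≠ e → x ≠ iv e → ∀ g, g ∈ D x ↔ u x * θ g ∈ D x)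
    (h1 : ∀ g, Cr (tr g Q) V → Cr (tr g (D d)) V) (h2 : ¬ Cr Q V) (h3 : Cr (D d) V) :
    kap (θ ⁻¹' V) < kap V := by
  classical
  have hpre : ∀ A : Set (FreeGroup α), Cr (θ ⁻¹' A) (θ ⁻¹' V) ↔ Cr A V := fun A => cr_preim θ
  -- the three kinds of half-spaces
  have hk1 : ∀ g, Cr (tr g (D e)) (θ ⁻¹' V) ↔ Cr (tr (θ g) Q) V := by
    intro g
    rw [← hpre]
    have : tr g (D e) = θ ⁻¹' (tr (θ g) Q) := by
      ext k
      rw [mem_tr, hQ, Set.mem_preimage, mem_tr, map_mul, map_inv]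
    rw [this]
  have hk2 : ∀ g, Cr (tr g (D (iv e))) (θ ⁻¹' V) ↔ Cr (tr (g * lt (iv e)) (D e)) (θ ⁻¹' V) := by
    intro g
    have := tr_mul_lt (g * lt (iv e)) e
    rw [mul_assoc, lt_iv_mul, mul_one] at this
    rw [this, Cr_compl_left]
  have hk3 : ∀ g, Cr (tr g (D d)) V ↔ Cr (tr (g * lt d) (D (iv d))) V := by
    intro g
    rw [tr_mul_lt, Cr_compl_left]
  have hk4 : ∀ x, x ≠ e → x ≠ iv e → ∀ g, Cr (tr g (D x)) (θ ⁻¹' V) ↔ Cr (tr (θ g * (u x)⁻¹) (D x)) V := by
    intro x hx hx' g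
    rw [← hpre]
    have : tr g (D x) = θ ⁻¹' (tr (θ g * (u x)⁻¹) (D x)) := by
      ext k
      rw [mem_tr, hu x hx hx', Set.mem_preimage, mem_tr, map_mul, map_inv, mul_inv_rev, inv_inv, mul_assoc]
    rw [this]
  set Φ : FreeGroup α × (α × Bool) → FreeGroup α × (α × Bool) := fun p =>
    if p.2 = e then (θ p.1, d) else if p.2 = iv e then (θ (p.1 * lt (iv e)) * lt d, iv d)
    else (θ p.1 * (u p.2)⁻¹, p.2) with hΦ
  have hΦe : ∀ g, Φ (g, e) = (θ g, d) := fun g => by rw [hΦ]; simp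
  have hΦi : ∀ g, Φ (g, iv e) = (θ (g * lt (iv e)) * lt d, iv d) := fun g => by
    rw [hΦ]; simp [iv_ne]
  have hΦx : ∀ g x, x ≠ e → x ≠ iv e → Φ (g, x) = (θ g * (u x)⁻¹, x) := fun g x hx hx' => by
    rw [hΦ]; simp [hx, hx']
  have hxd : ∀ x, x ≠ e → x ≠ iv e → x ≠ d ∧ x ≠ iv d := by
    intro x hx hx'
    rcases hde with rfl | rfl
    · exact ⟨hx, hx'⟩
    · rw [iv_iv] at hx'; exact ⟨hx', hx⟩
  have hinj : Function.Injective Φ := by
    rintro ⟨g, x⟩ ⟨g', x'⟩ hh
    by_cases a1 : x = e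
    · by_cases b1 : x' = e
      · subst a1; subst b1
        rw [hΦe, hΦe, Prod.mk.injEq] at hh
        rw [θ.injective hh.1]
      by_cases b2 : x' = iv e
      · subst a1; subst b2
        rw [hΦe, hΦi, Prod.mk.injEq] at hh
        exact absurd hh.2 (ne_iv d)
      · subst a1
        rw [hΦe, hΦx _ _ b1 b2, Prod.mk.injEq] at hh
        exact absurd hh.2.symm (hxd x' b1 b2).1
    by_cases a2 : x = iv e
    · by_cases b1 : x' = e
      · subst a2; subst b1
        rw [hΦe, hΦi, Prod.mk.injEq] at hh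
        exact absurd hh.2 (iv_ne d)
      by_cases b2 : x' = iv e
      · subst a2; subst b2
        rw [hΦi, hΦi, Prod.mk.injEq] at hh
        have := θ.injective (mul_right_cancel hh.1)
        rw [mul_right_cancel this]
      · subst a2
        rw [hΦi, hΦx _ _ b1 b2, Prod.mk.injEq] at hh
        exact absurd hh.2.symm (hxd x' b1 b2).2
    · by_cases b1 : x' = e
      · subst b1
        rw [hΦe, hΦx _ _ a1 a2, Prod.mk.injEq] at hh
        exact absurd hh.2 (hxd x a1 a2).1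
      by_cases b2 : x' = iv e
      · subst b2
        rw [hΦi, hΦx _ _ a1 a2, Prod.mk.injEq] at hh
        exact absurd hh.2 (hxd x a1 a2).2
      · rw [hΦx _ _ a1 a2, hΦx _ _ b1 b2, Prod.mk.injEq] at hh
        obtain ⟨h5, h6⟩ := hh
        subst h6
        rw [θ.injective (mul_right_cancel h5)]
  have hEV := E_finite hV
  have hd1 : ((1 : FreeGroup α), d) ∈ E V := by
    show Cr (tr 1 (D d)) V
    rw [tr_one]; exact h3
  have hsub : Φ '' (E (θ ⁻¹' V)) ⊆ E V \ {(1, d)} := by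
    rintro _ ⟨⟨g, x⟩, hgx, rfl⟩
    have hgx' : Cr (tr g (D x)) (θ ⁻¹' V) := hgx
    by_cases a1 : x = e
    · subst a1
      rw [hΦe]
      rw [hk1] at hgx'
      refine ⟨h1 _ hgx', ?_⟩
      intro hh
      rw [Set.mem_singleton_iff, Prod.mk.injEq] at hh
      rw [hh.1, tr_one] at hgx'
      exact h2 hgx'
    by_cases a2 : x = iv e
    · subst a2
      rw [hΦi]
      rw [hk2, hk1] at hgx'
      refine ⟨?_, ?_⟩
      · show Cr (tr (θ (g * lt (iv e)) * lt d) (D (iv d))) V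
        rw [← hk3]
        exact h1 _ hgx'
      · intro hh
        rw [Set.mem_singleton_iff, Prod.mk.injEq] at hh
        exact iv_ne d hh.2
    · rw [hΦx _ _ a1 a2]
      refine ⟨?_, ?_⟩
      · show Cr (tr (θ g * (u x)⁻¹) (D x)) V
        rw [← hk4 x a1 a2]
        exact hgx'
      · intro hh
        rw [Set.mem_singleton_iff, Prod.mk.injEq] at hh
        exact (hxd x a1 a2).1 hh.2
  unfold kap
  rw [← Set.ncard_image_of_injective _ hinj]
  calc (Φ '' (E (θ ⁻¹' V))).ncard ≤ (E V \ {(1, d)}).ncard :=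
        Set.ncard_le_ncard hsub (hEV.subset Set.sdiff_subset)
    _ < (E V).ncard := Set.ncard_sdiff_singleton_lt_of_mem hd1 hEV

theorem nest_preim {V : Set (FreeGroup α)} (h : ∀ g, ¬ Cr (tr g V) V) (θ : FreeGroup α ≃* FreeGroup α) :
    ∀ g, ¬ Cr (tr g (θ ⁻¹' V)) (θ ⁻¹' V) := by
  intro g hg
  apply h (θ g)
  rw [← cr_preim θ]
  have : tr g (θ ⁻¹' V) = θ ⁻¹' (tr (θ g) V) := by
    ext k
    rw [mem_tr, Set.mem_preimage, Set.mem_preimage, mem_tr, map_mul, map_inv]
  rwa [← this]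

theorem nest_tr {V : Set (FreeGroup α)} (h : ∀ g, ¬ Cr (tr g V) V) (v : FreeGroup α) :
    ∀ g, ¬ Cr (tr g (tr v⁻¹ V)) (tr v⁻¹ V) := by
  intro g hg
  apply h (v * g * v⁻¹)
  rw [← Cr_tr v, tr_tr, tr_tr, tr_tr, mul_inv_cancel, tr_one] at hg
  exact hg

theorem descent [Finite α] : ∀ (n : ℕ) (V : Set (FreeGroup α)) (w : FreeGroup α), kap V = n → FC V →
    Closed V w → (∀ g, ¬ Cr (tr g V) V) → TPos w := by
  intro n
  induction n using Nat.strong_induction_on with
  | h n ih =>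
    intro V0 w hk0 hV0 hcl0 hn0
    obtain ⟨v, hv⟩ := exists_leaf hV0 hcl0.ne.1 hcl0.ne.2
    -- translate
    set V := tr v⁻¹ V0 with hVdef
    have hk : kap V = n := by rw [hVdef, kap_tr, hk0]
    have hV : FC V := hV0.tr _
    have hcl : Closed V w := hcl0.tr _
    have hn : ∀ g, ¬ Cr (tr g V) V := nest_tr hn0 v
    have hpu : ∀ x, Pu (tr v (D x)) V0 → Pu (D x) V := by
      intro x hx
      rcases hx with hx | hx
      · left; intro g hg
        rw [hVdef, mem_tr, inv_inv]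
        exact hx _ (by rw [mem_tr]; simpa using hg)
      · right; intro g hg
        rw [hVdef, mem_tr, inv_inv]
        exact hx _ (by rw [mem_tr]; simpa using hg)
    rcases hv with hv | ⟨d, hd, hv⟩
    · exact loc_final hV hcl (fun x => hpu x (hv x))
    have hd' : Cr (D d) V := by
      rw [hVdef, ← Cr_tr v, tr_tr]; simpa using hd
    have hv' : ∀ x, x ≠ d → Pu (D x) V := fun x hx => hpu x (hv x hx)
    -- the general step
    have step : ∀ (P : Set (FreeGroup α)) (e : α × Bool) (Z : Set (α × Bool)), (e = d ∨ e = iv d) →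
        e ∈ Z → iv e ∉ Z → (St Z = P ∨ St Z = Pᶜ) → (∀ g ∈ P, g ∉ D d) →
        (∀ g ∈ P, (g ∈ V ↔ lt (iv d) ∈ V)) →
        (∀ g, g ∉ D d → g ∉ P → (g ∈ V ↔ ¬ lt (iv d) ∈ V)) → TPos w := by
      intro P e Z hde he he' hZP hP0 hP1 hP2
      obtain ⟨θ, hθ, hθ'⟩ := whitehead Z e he he'
      choose! u hu using hθ'
      have hQ : ∀ g, Cr (tr g (St Z)) V ↔ Cr (tr g P) V := by
        intro g
        rcases hZP with h | h
        · rw [h]
        · rw [h, tr_compl, Cr_compl_left]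
      have hlt : kap (θ ⁻¹' V) < kap V := by
        refine kap_preim_lt hV θ hde hθ hu ?_ ?_ hd'
        · intro g hg
          rw [hQ, Cr_tr_left] at hg
          rw [Cr_tr_left]
          exact push_cross' _ hP0 hP1 hP2 hd' (hn _) hg
        · have h2 := hQ 1
          rw [tr_one, tr_one] at h2
          rw [h2]
          intro hc
          apply hc.not_pu
          by_cases hq : lt (iv d) ∈ V
          · left; intro g hg; exact (hP1 g hg).2 hq
          · right; intro g hg hh; exact hq ((hP1 g hg).1 hh)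
      obtain ⟨φ, x, hx⟩ := ih (kap (θ ⁻¹' V)) (by rw [← hk]; exact hlt) (θ ⁻¹' V) (θ.symm w) rfl
        (hV.preim θ) (hcl.preim θ) (nest_preim hn θ)
      exact ⟨θ.symm.trans φ, x, hx⟩
    set T : Set (α × Bool) := {x | x ≠ d ∧ (lt x ∈ V ↔ lt (iv d) ∈ V)} with hT
    have hT1 : iv d ∈ T := ⟨iv_ne d, Iff.rfl⟩
    have hT2 : d ∉ T := fun h => h.1 rfl
    have hSt : ∀ g, g ∈ St T → g ∉ D d ∧ (g ∈ V ↔ lt (iv d) ∈ V) := by
      rintro g ⟨x, hx, hg⟩
      refine ⟨fun h => hx.1 (D_unique hg h), ?_⟩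
      rw [pu_iff (hv' x hx.1) hg (lt_mem_D.2 rfl)]
      exact hx.2
    have hnSt : ∀ g, g ∉ D d → g ∉ St T → g ≠ 1 → (g ∈ V ↔ ¬ lt (iv d) ∈ V) := by
      intro g h1 h2 h3
      obtain ⟨x, hx⟩ := exists_D h3
      have hxd : x ≠ d := by rintro rfl; exact h1 hx
      rw [mem_St hx] at h2
      have h4 : ¬ (lt x ∈ V ↔ lt (iv d) ∈ V) := fun h => h2 ⟨hxd, h⟩
      rw [pu_iff (hv' x hxd) hx (lt_mem_D.2 rfl)]
      tauto
    by_cases h1 : ((1 : FreeGroup α) ∈ V ↔ lt (iv d) ∈ V)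
    · -- P = {1} ∪ St T, complement St Tᶜ
      have hcompl : ∀ g, g ∈ St Tᶜ ↔ ¬ (g = 1 ∨ g ∈ St T) := by
        intro g
        by_cases hg : g = 1
        · rw [hg]; simp [one_notMem_St]
        · obtain ⟨x, hx⟩ := exists_D hg
          rw [mem_St hx, mem_St hx]
          simp [hg]
      refine step {g | g = 1 ∨ g ∈ St T} d Tᶜ (Or.inl rfl) hT2 (fun h => h hT1)
        (Or.inr (by ext g; rw [hcompl]; rfl)) ?_ ?_ ?_
      · rintro g (hg | hg)
        · rw [hg]; exact one_notMem_D d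
        · exact (hSt g hg).1
      · rintro g (hg | hg)
        · rw [hg]; exact h1
        · exact (hSt g hg).2
      · intro g hg hg'
        have : ¬ (g = 1 ∨ g ∈ St T) := hg'
        rw [not_or] at this
        exact hnSt g hg this.2 this.1
    · refine step (St T) (iv d) T (Or.inr rfl) hT1 (by rw [iv_iv]; exact hT2) (Or.inl rfl)
        (fun g hg => (hSt g hg).1) (fun g hg => (hSt g hg).2) ?_
      intro g hg hg'
      by_cases hg1 : g = 1
      · rw [hg1]; tauto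
      · exact hnSt g hg hg' hg1

/-- the main direction -/
theorem tpos_of_closed [Finite α] {w : FreeGroup α} (h : ∃ V : Set (FreeGroup α), FC V ∧ Closed V w) :
    TPos w := by
  obtain ⟨V, h1, h2, h3⟩ := exists_nested h
  exact descent _ V w rfl h1 h2 h3

theorem mul_mk_mem_D {x : α × Bool} {l : List (α × Bool)} (h2 : iv x ∉ l) :
    ∀ h : FreeGroup α, h ∈ D x → h * FreeGroup.mk l ∈ D x := by
  induction l with
  | nil => intro h hh; rw [← FreeGroup.one_eq_mk, mul_one]; exact hh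
  | cons y l ih =>
    intro h hh
    rw [List.mem_cons, not_or] at h2
    rw [mk_cons, ← mul_assoc]
    apply ih h2.2
    by_contra hc
    have h3 : ¬ (h ∈ D x ↔ h * lt y ∈ D x) := fun h4 => hc (h4.1 hh)
    rcases adj h3 with ⟨h5, -⟩ | ⟨-, h5⟩
    · rw [h5] at hh; exact one_notMem_D _ hh
    · exact h2.1 h5.symm

/-- the easy direction -/
theorem closed_of_tpos {w : FreeGroup α} (h : TPos w) : ∃ V : Set (FreeGroup α), FC V ∧ Closed V w := by
  obtain ⟨θ, x, hx1, hx2⟩ := h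
  have key : Closed (D x) (θ w) := by
    set u := θ w with hu
    obtain ⟨p, q, hpq, hp⟩ := List.eq_append_cons_of_mem hx1
    have hr : Red (p ++ x :: q) := by rw [← hpq]; exact red_toWord u
    have hue : u = FreeGroup.mk p * (lt x * FreeGroup.mk q) := by
      rw [← mk_cons, FreeGroup.mul_mk, ← hpq, FreeGroup.mk_toWord]
    have hip : iv x ∉ p := fun h => hx2 (by rw [hpq]; exact List.mem_append_left _ h)
    refine ⟨fun h hh => ?_, (FreeGroup.mk p)⁻¹, ?_, ?_⟩
    · have := mul_mk_mem_D hx2 h hh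
      rwa [FreeGroup.mk_toWord] at this
    · rw [mem_D_mul_mk hp hip, inv_mul_cancel]
      exact one_notMem_D x
    · rw [hue, inv_mul_cancel_left, lt_mul_mem_D]
      have hr2 := red_append_right hr
      rw [red_cons] at hr2
      unfold D
      rw [Set.mem_ofPred_eq, hr2.1]
      exact hr2.2
  refine ⟨θ ⁻¹' (D x), (FC_D x).preim θ, ?_⟩
  have := key.preim θ
  simpa using this

theorem tpos_iff [Finite α] {w : FreeGroup α} : TPos w ↔ ∃ V : Set (FreeGroup α), FC V ∧ Closed V w :=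
  ⟨closed_of_tpos, tpos_of_closed⟩

end Pool.Agent.Helper43.TP
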