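import Pool.Agent.Helper43.TP.Pump
import Pool.Agent.Helper43.TP.Descent

set_option autoImplicit false

/-!
Decidability of being potentially partially positive.
-/

namespace Pool.Agent.Helper43.TP

open Primrec

section words

variable {r : ℕ}

/-- letters and words -/
abbrev Le (r : ℕ) := Fin r × Bool
abbrev Wo (r : ℕ) := List (Le r)

/-- one step of the reduction -/
def rstep (x : Le r) (ih : Wo r) : Wo r :=
  List.casesOn ih [x] fun hd tl => if x.1 = hd.1 ∧ x.2 = !hd.2 then tl else x :: hd :: tl

theorem rstep_primrec : Primrec₂ (rstep (r := r)) := by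
  refine list_casesOn (f := fun a : Le r × Wo r => a.2) (g := fun a => [a.1])
    (h := fun a b => if a.1.1 = b.1.1 ∧ a.1.2 = !b.1.2 then b.2 else a.1 :: b.1 :: b.2)
    snd (list_cons.comp fst (const [])) ?_
  refine Primrec.ite (PrimrecPred.and ?_ ?_) (snd.comp snd) ?_
  · exact Primrec.eq.comp (fst.comp (fst.comp fst)) (fst.comp (fst.comp snd))
  · exact Primrec.eq.comp (snd.comp (fst.comp fst)) (Primrec.not.comp (snd.comp (fst.comp snd)))
  · exact list_cons.comp (fst.comp fst) (list_cons.comp (fst.comp snd) (snd.comp snd))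

theorem reduce_primrec : Primrec (FreeGroup.reduce : Wo r → Wo r) := by
  refine (list_foldr (f := fun l : Wo r => l) (g := fun _ => ([] : Wo r))
    (h := fun _ b => rstep b.1 b.2) Primrec.id (const []) (rstep_primrec.comp (fst.comp snd)
      (snd.comp snd))).of_eq fun l => ?_
  induction l with
  | nil => rfl
  | cons a l ih =>
    rw [List.foldr_cons, ih, FreeGroup.reduce.cons]
    rfl

/-- all letters -/
noncomputable def lets (r : ℕ) : List (Le r) := (Finset.univ : Finset (Le r)).toList

/-- all words of length at most `n` -/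
noncomputable def wordsL (r n : ℕ) : List (Wo r) :=
  Nat.rec [[]] (fun _ S => [] :: S.flatMap (fun w => (lets r).map (fun a => a :: w))) n

theorem mem_wordsL {n : ℕ} {w : Wo r} : w ∈ wordsL r n ↔ w.length ≤ n := by
  induction n generalizing w with
  | zero =>
    have h0 : wordsL r 0 = [[]] := rfl
    rw [h0, List.mem_singleton, Nat.le_zero, List.length_eq_zero_iff]
  | succ n ih =>
    have h1 : wordsL r (n + 1) =
      [] :: (wordsL r n).flatMap (fun w => (lets r).map (fun a => a :: w)) := rfl
    rw [h1, List.mem_cons, List.mem_flatMap]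
    constructor
    · rintro (rfl | ⟨v, hv, hw⟩)
      · simp
      · rw [List.mem_map] at hw
        obtain ⟨a, ha, rfl⟩ := hw
        have := ih.1 hv
        simpa using this
    · intro h2
      cases w with
      | nil => left; rfl
      | cons a v =>
        right
        refine ⟨v, ih.2 (by simpa using h2), ?_⟩
        exact List.mem_map.2 ⟨a, by unfold lets; simp, rfl⟩

theorem wordsL_primrec : Primrec (wordsL r) := by
  have h : Primrec₂ (fun (_ : ℕ) (S : List (Wo r)) =>
      [] :: S.flatMap (fun w => (lets r).map (fun a => a :: w))) := by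
    refine list_cons.comp (const []) (list_flatMap snd ?_)
    refine list_map (const _) ?_
    exact list_cons.comp snd (snd.comp fst)
  exact Primrec.nat_rec₁ _ h

/-- all sublists -/
def subs (L : List (Wo r)) : List (List (Wo r)) :=
  L.foldr (fun a T => T ++ T.map (fun S => a :: S)) [[]]

theorem filter_mem_subs (p : Wo r → Bool) (L : List (Wo r)) : L.filter p ∈ subs L := by
  induction L with
  | nil => unfold subs; simp
  | cons a L ih =>
    have e : subs (a :: L) = subs L ++ (subs L).map (fun S => a :: S) := rfl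
    rw [e, List.mem_append]
    by_cases h : p a = true
    · right
      rw [List.filter_cons_of_pos h]
      exact List.mem_map.2 ⟨_, ih, rfl⟩
    · left
      rw [List.filter_cons_of_neg h]
      exact ih

theorem subs_primrec : Primrec (subs (r := r)) := by
  refine list_foldr (f := fun L : List (Wo r) => L) (g := fun _ => ([[]] : List (List (Wo r))))
    (h := fun _ b => b.2 ++ b.2.map (fun S => b.1 :: S)) Primrec.id (const _) ?_
  refine list_append.comp (snd.comp snd) (list_map (snd.comp snd) ?_)
  exact list_cons.comp (fst.comp (snd.comp fst)) snd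

/-- the bound -/
def bR (r : ℕ) (w : Wo r) : ℕ := bd (Fintype.card (Le r)) w.length

theorem pow_primrec : Primrec₂ (fun a b : ℕ => a ^ b) := Primrec₂.unpaired'.1 Nat.Primrec.pow

theorem bR_primrec : Primrec (bR r) :=
  nat_add.comp (nat_mul.comp (const _) (pow_primrec.comp (const 2)
    (nat_add.comp list_length (const 1)))) (const 1)

/-- membership in the set given by the list `S` -/
def inV (S : List (Wo r)) (R : ℕ) (g : Wo r) : Prop := (FreeGroup.reduce g).take R ∈ S

theorem inV_primrec : PrimrecPred (fun a : List (Wo r) × ℕ × Wo r => inV a.1 a.2.1 a.2.2) := by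
  have h1 : PrimrecRel (fun (S : List (Wo r)) (g : Wo r) => ∃ x ∈ S, x = g) :=
    (Primrec.eq (α := Wo r)).exists_mem_list
  have h2 : Primrec (fun a : List (Wo r) × ℕ × Wo r => (FreeGroup.reduce a.2.2).take a.2.1) :=
    list_take.comp (fst.comp snd) (reduce_primrec.comp (snd.comp snd))
  have h3 : PrimrecPred (fun a : List (Wo r) × ℕ × Wo r =>
      ∃ x ∈ a.1, x = (FreeGroup.reduce a.2.2).take a.2.1) := h1.comp fst h2
  refine h3.of_eq fun a => ?_
  unfold inV
  simp

/-- the check -/
def check (S : List (Wo r)) (w : Wo r) : Prop :=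
  ¬ inV S (bR r w) [] ∧ inV S (bR r w) w ∧
    ∀ g ∈ wordsL r (bR r w + w.length), ¬ inV S (bR r w) g ∨ inV S (bR r w) (g ++ w)

theorem check_primrec : PrimrecRel (check (r := r)) := by
  have hR : Primrec (fun a : List (Wo r) × Wo r => bR r a.2) := bR_primrec.comp snd
  have h1 : PrimrecPred (fun a : List (Wo r) × Wo r => inV a.1 (bR r a.2) []) :=
    inV_primrec.comp (Primrec.pair fst (Primrec.pair hR (const _)))
  have h2 : PrimrecPred (fun a : List (Wo r) × Wo r => inV a.1 (bR r a.2) a.2) :=
    inV_primrec.comp (Primrec.pair fst (Primrec.pair hR snd))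
  have h3a : PrimrecPred (fun b : Wo r × (List (Wo r) × Wo r) => inV b.2.1 (bR r b.2.2) b.1) :=
    inV_primrec.comp (Primrec.pair (fst.comp snd) (Primrec.pair (hR.comp snd) fst))
  have h3b : PrimrecPred (fun b : Wo r × (List (Wo r) × Wo r) =>
      inV b.2.1 (bR r b.2.2) (b.1 ++ b.2.2)) :=
    inV_primrec.comp (Primrec.pair (fst.comp snd) (Primrec.pair (hR.comp snd)
        (list_append.comp fst (snd.comp snd))))
  have h3 : PrimrecRel (fun (g : Wo r) (a : List (Wo r) × Wo r) =>
      ¬ inV a.1 (bR r a.2) g ∨ inV a.1 (bR r a.2) (g ++ a.2)) := (h3a.not.or h3b).primrecRel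
  have h4 : PrimrecPred (fun a : List (Wo r) × Wo r => ∀ g ∈ wordsL r (bR r a.2 + a.2.length),
      ¬ inV a.1 (bR r a.2) g ∨ inV a.1 (bR r a.2) (g ++ a.2)) :=
    h3.forall_mem_list.comp (wordsL_primrec.comp (nat_add.comp hR (list_length.comp snd))) Primrec.id
  exact (h1.not.and (h2.and h4)).primrecRel

theorem dec_primrec : PrimrecPred (fun w : Wo r => ∃ S ∈ subs (wordsL r (bR r w)), check S w) :=
  check_primrec.exists_mem_list.comp (subs_primrec.comp (wordsL_primrec.comp bR_primrec)) Primrec.id

end words

section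

variable {α : Type} [DecidableEq α]

theorem take_mul {R : ℕ} (l : List (α × Bool)) : ∀ h : FreeGroup α, R + l.length ≤ ln h →
    (h * FreeGroup.mk l).toWord.take R = h.toWord.take R := by
  induction l with
  | nil => intro h _; rw [← FreeGroup.one_eq_mk, mul_one]
  | cons x l ih =>
    intro h hh
    rw [List.length_cons] at hh
    rw [mk_cons, ← mul_assoc]
    unfold ln at hh
    rcases mul_lt_cases h x with h1 | ⟨p, h1, h2⟩
    · rw [ih (h * lt x) (by unfold ln; rw [h1, List.length_append]; omega), h1,
        List.take_append_of_le_length (by omega)]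
    · have h3 : h.toWord.length = p.length + 1 := by rw [h1]; simp
      rw [ih (h * lt x) (by unfold ln; rw [h2]; omega), h1, h2, List.take_append_of_le_length (by omega)]

end

theorem dec_iff {r : ℕ} (w : Wo r) : (∃ S ∈ subs (wordsL r (bR r w)), check S w) ↔
    ∃ V : Set (FreeGroup (Fin r)), Det (bR r w) V ∧ Cl V w := by
  classical
  set R := bR r w with hR
  constructor
  · rintro ⟨S, -, h1, h2, h3⟩
    rw [← hR] at h1 h2 h3
    refine ⟨{h | h.toWord.take R ∈ S}, ?_, ?_, ?_, ?_⟩
    · intro g hg
      rw [Set.mem_ofPred_eq, Set.mem_ofPred_eq, red_take (red_toWord g) R, List.take_take, min_self]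
    · intro h hh
      rw [Set.mem_ofPred_eq] at hh ⊢
      rcases le_total (ln h) (R + w.length) with h4 | h4
      · have h5 := h3 h.toWord (mem_wordsL.2 h4)
        have h6 : inV S R h.toWord := by
          unfold inV; rw [FreeGroup.reduce_toWord]; exact hh
        rcases h5 with h5 | h5
        · exact absurd h6 h5
        · unfold inV at h5
          have e : (h * FreeGroup.mk w).toWord = FreeGroup.reduce (h.toWord ++ w) := by
            rw [← FreeGroup.toWord_mk, ← FreeGroup.mul_mk, FreeGroup.mk_toWord]
          rw [e]; exact h5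
      · rw [take_mul w h h4]; exact hh
    · rw [Set.mem_ofPred_eq]
      unfold inV at h1
      simpa using h1
    · rw [Set.mem_ofPred_eq, FreeGroup.toWord_mk]
      exact h2
  · rintro ⟨V, hV, hcl⟩
    have hall : ∀ h : FreeGroup (Fin r), FreeGroup.mk (h.toWord.take R) ∈ V ↔ h ∈ V := by
      intro h
      rcases le_total R (ln h) with h1 | h1
      · exact (hV h h1).symm
      · rw [List.take_of_length_le h1, FreeGroup.mk_toWord]
    set S := (wordsL r R).filter (fun g => decide (FreeGroup.mk g ∈ V)) with hS
    have hin : ∀ g : Wo r, inV S R g ↔ FreeGroup.mk g ∈ V := by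
      intro g
      unfold inV
      rw [hS, List.mem_filter, decide_eq_true_eq, ← FreeGroup.toWord_mk, hall]
      refine ⟨fun h => h.2, fun h => ⟨mem_wordsL.2 (List.length_take_le _ _), h⟩⟩
    refine ⟨S, filter_mem_subs _ _, ?_, ?_, ?_⟩
    · rw [← hR, hin]; exact hcl.one
    · rw [← hR, hin]; exact hcl.w
    · intro g _
      rw [← hR, hin, hin, ← FreeGroup.mul_mk]
      by_cases h : FreeGroup.mk g ∈ V
      · right; exact hcl.rc _ h
      · left; exact h

theorem tpos_iff_dec {r : ℕ} (w : Wo r) : TPos (FreeGroup.mk w : FreeGroup (Fin r)) ↔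
    ∃ S ∈ subs (wordsL r (bR r w)), check S w := by
  rw [dec_iff, tpos_iff]
  constructor
  · rintro ⟨V, h1, h2, k, hk1, hk2⟩
    refine exists_bounded ⟨tr k⁻¹ V, h1.tr _, ?_, ?_, ?_⟩
    · intro h hh
      rw [mem_tr] at hh ⊢
      rw [← mul_assoc]
      exact h2 _ hh
    · rw [mem_tr, mul_one, inv_inv]; exact hk1
    · rw [mem_tr, inv_inv]; exact hk2
  · rintro ⟨V, h1, h2⟩
    exact ⟨V, h1.fc, h2.rc, 1, h2.one, by rw [one_mul]; exact h2.w⟩

theorem tpos_computable (r : ℕ) :
    ComputablePred (fun w : List (Fin r × Bool) => TPos (FreeGroup.mk w : FreeGroup (Fin r))) := by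
  have h : PrimrecPred (fun w : Wo r => TPos (FreeGroup.mk w : FreeGroup (Fin r))) :=
    dec_primrec.of_eq fun w => (tpos_iff_dec w).symm
  obtain ⟨hdec, hprim⟩ := h
  exact ⟨hdec, hprim.to_comp⟩

/-! ### changing the sign of the letter -/

section

variable {α : Type} [DecidableEq α]

/-- the automorphism inverting all basis letters -/
def flipH : FreeGroup α →* FreeGroup α := FreeGroup.lift (fun a => lt (a, false))

theorem flipH_lt (x : α × Bool) : flipH (lt x) = lt (iv x) := by
  have := lift_lt (α := α) (fun x : α × Bool => lt (iv x)) (fun x => by rw [lt_iv]) x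
  exact this

theorem flipH_flipH : (flipH (α := α)).comp flipH = MonoidHom.id _ := by
  apply hom_ext_lt
  intro x
  rw [MonoidHom.comp_apply, flipH_lt, flipH_lt, iv_iv]
  rfl

def flipE : FreeGroup α ≃* FreeGroup α := MonoidHom.toMulEquiv flipH flipH flipH_flipH flipH_flipH

theorem flipE_toWord (g : FreeGroup α) : (flipE g).toWord = g.toWord.map iv := by
  show (flipH g).toWord = _
  induction g using ind_D with
  | h1 => simp
  | h x g hg ih =>
    rw [map_mul, flipH_lt, length_lt_mul hg, toWord_lt_mul, ih, List.map_cons]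
    rw [if_neg]
    intro h
    apply hg
    unfold D
    rw [Set.mem_ofPred_eq]
    cases hw : g.toWord with
    | nil => rw [hw] at h; simp at h
    | cons y l =>
      rw [hw] at h
      have : iv y = iv (iv x) := by simpa using h
      rw [iv_inj this]
      rfl

/-- potentially partially positive, as in the problem -/
def ThreeP (w : FreeGroup α) : Prop :=
  ∃ (φ : FreeGroup α ≃* FreeGroup α) (a : α), (a, true) ∈ (φ w).toWord ∧ (a, false) ∉ (φ w).toWord

theorem threeP_iff (w : FreeGroup α) : ThreeP w ↔ TPos w := by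
  constructor
  · rintro ⟨φ, a, h1, h2⟩
    exact ⟨φ, (a, true), h1, h2⟩
  · rintro ⟨φ, ⟨a, b⟩, h1, h2⟩
    cases b with
    | true => exact ⟨φ, a, h1, h2⟩
    | false =>
      refine ⟨φ.trans flipE, a, ?_, ?_⟩
      · rw [MulEquiv.trans_apply, flipE_toWord, List.mem_map]
        exact ⟨_, h1, rfl⟩
      · rw [MulEquiv.trans_apply, flipE_toWord, List.mem_map]
        rintro ⟨y, hy, he⟩
        apply h2
        have : y = iv (a, false) := by
          have := congrArg iv he
          rw [iv_iv] at this
          rw [this]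
        rw [← this]; exact hy

end

end Pool.Agent.Helper43.TP
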