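import Pool.Agent.Helper43.TP.Basic

set_option autoImplicit false

/-!
Cones, sets determined by a ball, finiteness of crossings.
-/

namespace Pool.Agent.Helper43.TP

variable {α : Type} [DecidableEq α]

/-- reduced words -/
def Red (l : List (α × Bool)) : Prop := (FreeGroup.mk l).toWord = l

theorem red_toWord (g : FreeGroup α) : Red g.toWord := by
  unfold Red; rw [FreeGroup.mk_toWord]

theorem red_cons {x : α × Bool} {l : List (α × Bool)} :
    Red (x :: l) ↔ Red l ∧ l.head? ≠ some (iv x) := by
  unfold Red
  rw [mk_cons, toWord_lt_mul]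
  constructor
  · intro h
    have hle : (FreeGroup.mk l).toWord.length ≤ l.length := FreeGroup.norm_mk_le
    by_cases h1 : (FreeGroup.mk l).toWord.head? = some (iv x)
    · rw [if_pos h1] at h
      have := congrArg List.length h
      rw [List.length_tail, List.length_cons] at this
      omega
    · rw [if_neg h1] at h
      have h2 := (List.cons.inj h).2
      exact ⟨h2, by rw [← h2]; exact h1⟩
  · rintro ⟨h1, h2⟩
    rw [h1, if_neg h2]

theorem red_append_left {p q : List (α × Bool)} (h : Red (p ++ q)) : Red p := by
  induction p with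
  | nil => unfold Red; simp [← FreeGroup.one_eq_mk]
  | cons x p ih =>
    rw [List.cons_append, red_cons] at h
    rw [red_cons]
    refine ⟨ih h.1, ?_⟩
    intro h2
    apply h.2
    cases p with
    | nil => simp at h2
    | cons y p => simpa using h2

theorem red_append_right {p q : List (α × Bool)} (h : Red (p ++ q)) : Red q := by
  induction p with
  | nil => exact h
  | cons x p ih =>
    rw [List.cons_append, red_cons] at h
    exact ih h.1

/-- a half-space pointing away from `1` is a cone -/
theorem mem_tr_D {p : List (α × Bool)} {x : α × Bool} (hp : Red (p ++ [x])) (h : FreeGroup α) :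
    h ∈ tr (FreeGroup.mk p) (D x) ↔ (p ++ [x]) <+: h.toWord := by
  induction p generalizing h with
  | nil =>
    rw [← FreeGroup.one_eq_mk, tr_one]
    unfold D
    rw [Set.mem_ofPred_eq]
    cases h.toWord with
    | nil => simp
    | cons y l =>
      simp only [List.head?_cons, Option.some.injEq, List.nil_append, List.cons_prefix_cons,
        List.nil_prefix, and_true]
      exact eq_comm
  | cons y p ih =>
    rw [List.cons_append, red_cons] at hp
    rw [mk_cons, ← tr_tr, mem_tr, ← lt_iv, ih hp.1, toWord_lt_mul, iv_iv]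
    by_cases h1 : h.toWord.head? = some y
    · rw [if_pos h1]
      cases hh : h.toWord with
      | nil => rw [hh] at h1; simp at h1
      | cons z l =>
        rw [hh] at h1
        have h2 : z = y := by simpa using h1
        subst h2
        simp
    · rw [if_neg h1]
      constructor
      · intro h2
        exfalso
        apply hp.2
        cases p with
        | nil => 
          rw [List.nil_append, List.cons_prefix_cons] at h2
          simp [h2.1]
        | cons z p =>
          rw [List.cons_append, List.cons_prefix_cons] at h2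
          simp [h2.1]
      · intro h2
        exfalso
        apply h1
        cases hh : h.toWord with
        | nil => rw [hh] at h2; simp at h2
        | cons z l =>
          rw [hh, List.cons_append, List.cons_prefix_cons] at h2
          simp [h2.1]

/-- right multiplication by a letter -/
theorem mul_lt_cases (g : FreeGroup α) (x : α × Bool) :
    (g * lt x).toWord = g.toWord ++ [x] ∨
    ∃ p, g.toWord = p ++ [iv x] ∧ (g * lt x).toWord = p := by
  induction g using ind_D with
  | h1 => left; simp [toWord_lt]
  | h y g hg ih =>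
    have e := length_lt_mul hg
    rw [e, mul_assoc, toWord_lt_mul]
    rcases ih with h1 | ⟨p, h1, h2⟩
    · rw [h1]
      by_cases h3 : (g.toWord ++ [x]).head? = some (iv y)
      · right
        rw [if_pos h3]
        cases hw : g.toWord with
        | nil =>
          rw [hw] at h3
          have : x = iv y := by simpa using h3
          rw [this, iv_iv]
          exact ⟨[], rfl, rfl⟩
        | cons z l =>
          rw [hw] at h3
          exfalso
          apply hg
          unfold D
          rw [Set.mem_ofPred_eq, hw]
          simpa using h3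
      · left
        rw [if_neg h3]
        rfl
    · right
      rw [h2]
      have h3 : p.head? ≠ some (iv y) := by
        intro h4
        apply hg
        unfold D
        rw [Set.mem_ofPred_eq, h1]
        cases p with
        | nil => simp at h4
        | cons z p => simpa using h4
      rw [if_neg h3, h1]
      exact ⟨y :: p, rfl, rfl⟩

theorem tr_mul_lt (g : FreeGroup α) (y : α × Bool) : tr (g * lt y) (D (iv y)) = (tr g (D y))ᶜ := by
  ext h
  rw [mem_tr, Set.mem_compl_iff, mem_tr, mul_inv_rev, ← lt_iv, mul_assoc, lt_mul_mem_D, iv_iv]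

/-- length -/
def ln (g : FreeGroup α) : ℕ := g.toWord.length

theorem finite_ball [Finite α] (R : ℕ) : {g : FreeGroup α | ln g ≤ R}.Finite :=
  Set.Finite.preimage (FreeGroup.toWord_injective.injOn) (List.finite_length_le (α × Bool) R)

/-- determined by the ball of radius `R` -/
def Det (R : ℕ) (V : Set (FreeGroup α)) : Prop :=
  ∀ g : FreeGroup α, R ≤ ln g → (g ∈ V ↔ FreeGroup.mk (g.toWord.take R) ∈ V)

theorem det_of_step {R : ℕ} {V : Set (FreeGroup α)}
    (h : ∀ (g : FreeGroup α) (x : α × Bool), R ≤ ln g → (g * lt x).toWord = g.toWord ++ [x] →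
      (g ∈ V ↔ g * lt x ∈ V)) : Det R V := by
  have key : ∀ n (g : FreeGroup α), ln g = R + n → (g ∈ V ↔ FreeGroup.mk (g.toWord.take R) ∈ V) := by
    intro n
    induction n with
    | zero =>
      intro g hg
      rw [List.take_of_length_le (by unfold ln at hg; omega), FreeGroup.mk_toWord]
    | succ n ih =>
      intro g hg
      unfold ln at hg
      have hne : g.toWord ≠ [] := by
        intro h0; rw [h0] at hg; simp at hg
      obtain ⟨l, x, hl⟩ : ∃ l x, g.toWord = l ++ [x] :=
        ⟨_, _, (List.dropLast_append_getLast hne).symm⟩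
      have hr : Red (l ++ [x]) := by rw [← hl]; exact red_toWord g
      have hl2 : (FreeGroup.mk l).toWord = l := red_append_left hr
      have hg2 : g = FreeGroup.mk l * lt x := by
        rw [← FreeGroup.mk_toWord (x := g), hl]
        unfold lt; rw [FreeGroup.mul_mk]
      have hlen : l.length = R + n := by
        rw [hl, List.length_append, List.length_singleton] at hg
        omega
      have h1 := ih (FreeGroup.mk l) (by unfold ln; rw [hl2, hlen])
      have h2 := h (FreeGroup.mk l) x (by unfold ln; rw [hl2]; omega) (by rw [← hg2, hl, hl2])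
      rw [← hg2] at h2
      rw [← h2, h1, hl2, hl, List.take_append_of_le_length (by omega)]
  intro g hg
  exact key (ln g - R) g (by omega)

theorem exists_det [Finite α] {V : Set (FreeGroup α)} (h : FC V) : ∃ R, Det R V := by
  have h1 : (⋃ x : α × Bool, {g : FreeGroup α | ¬ (g ∈ V ↔ g * lt x ∈ V)}).Finite :=
    Set.finite_iUnion (fun x => h (lt x))
  obtain ⟨R, hR⟩ := (h1.image ln).bddAbove
  refine ⟨R + 1, det_of_step (fun g x hg _ => ?_)⟩
  by_contra hc
  have := hR ⟨g, Set.mem_iUnion.2 ⟨x, hc⟩, rfl⟩
  omega

theorem Det.fc [Finite α] {R : ℕ} {V : Set (FreeGroup α)} (h : Det R V) : FC V := by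
  apply FC_of_letters
  intro x
  refine (finite_ball (R + 1)).subset ?_
  intro g hg
  rw [Set.mem_ofPred_eq] at hg ⊢
  by_contra hlt
  apply hg
  unfold ln at hlt
  rcases mul_lt_cases g x with h1 | ⟨p, h1, h2⟩
  · rw [h g (by unfold ln; omega), h (g * lt x) (by unfold ln; rw [h1, List.length_append]; omega), h1,
      List.take_append_of_le_length (by omega)]
  · have h3 : g.toWord.length = p.length + 1 := by rw [h1]; simp
    rw [h g (by unfold ln; omega), h (g * lt x) (by unfold ln; rw [h2]; omega), h1, h2,
      List.take_append_of_le_length (by omega)]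

/-- `V` is constant on `A` -/
def Pu (A V : Set (FreeGroup α)) : Prop := (∀ g ∈ A, g ∈ V) ∨ (∀ g ∈ A, g ∉ V)

theorem Det.pu {R : ℕ} {V : Set (FreeGroup α)} (h : Det R V) {p : List (α × Bool)} (hp : R ≤ p.length) :
    Pu {g : FreeGroup α | p <+: g.toWord} V := by
  have key : ∀ g : FreeGroup α, p <+: g.toWord → (g ∈ V ↔ FreeGroup.mk (p.take R) ∈ V) := by
    intro g hg
    obtain ⟨q, hq⟩ := hg
    rw [h g (by unfold ln; rw [← hq, List.length_append]; omega), ← hq,
      List.take_append_of_le_length hp]
  by_cases h1 : FreeGroup.mk (p.take R) ∈ V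
  · left; intro g hg; exact (key g hg).2 h1
  · right; intro g hg h2; exact h1 ((key g hg).1 h2)

theorem Cr.not_pu {A V : Set (FreeGroup α)} (h : Cr A V) : ¬ Pu A V := by
  obtain ⟨⟨a, h1, h2⟩, ⟨b, h3, h4⟩, -, -⟩ := h
  rintro (h5 | h5)
  · exact h4 (h5 b h3)
  · exact h5 a h1 h2

theorem cr_of_not_pu {A V : Set (FreeGroup α)} (h : ¬ Pu A V) (h' : ¬ Pu Aᶜ V) : Cr A V := by
  unfold Pu at h h'
  push Not at h h'
  obtain ⟨⟨a, ha1, ha2⟩, b, hb1, hb2⟩ := h
  obtain ⟨⟨c, hc1, hc2⟩, d, hd1, hd2⟩ := h'
  exact ⟨⟨b, hb1, hb2⟩, ⟨a, ha1, ha2⟩, ⟨d, hd1, hd2⟩, ⟨c, hc1, hc2⟩⟩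

theorem not_cr_of_pu {A V W : Set (FreeGroup α)} (h : Pu A V) (h' : Pu Aᶜ W) : ¬ Cr W V := by
  rintro ⟨⟨a, h1, h2⟩, ⟨b, h3, h4⟩, ⟨c, h5, h6⟩, ⟨d, h7, h8⟩⟩
  have e : ∀ g, g ∈ A ∨ g ∈ Aᶜ := fun g => em _
  rcases h with h | h <;> rcases h' with h' | h'
  · -- V on A, W off A : not both false
    rcases e d with hd | hd
    · exact h8 (h d hd)
    · exact h7 (h' d hd)
  · rcases e b with hd | hd
    · exact h4 (h b hd)
    · exact h' b hd h3
  · rcases e c with hd | hd
    · exact h c hd h6
    · exact h5 (h' c hd)
  · rcases e a with hd | hd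
    · exact h a hd h2
    · exact h' a hd h1

theorem cr_bound {R : ℕ} {V : Set (FreeGroup α)} (h : Det R V) {g : FreeGroup α} {x : α × Bool}
    (hc : Cr (tr g (D x)) V) : ln g < R := by
  by_contra hlt
  rcases mul_lt_cases g x with h1 | ⟨p, h1, h2⟩
  · apply hc.not_pu
    have hr : Red (g.toWord ++ [x]) := by rw [← h1]; exact red_toWord _
    have e : tr g (D x) = {k : FreeGroup α | (g.toWord ++ [x]) <+: k.toWord} := by
      ext k
      have := mem_tr_D hr k
      rw [FreeGroup.mk_toWord] at this
      exact this
    rw [e]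
    exact h.pu (by rw [List.length_append]; unfold ln at hlt; omega)
  · have hr : Red (p ++ [iv x]) := by rw [← h1]; exact red_toWord _
    have hg : g = FreeGroup.mk p * lt (iv x) := by
      rw [← FreeGroup.mk_toWord (x := g), h1]
      unfold lt; rw [FreeGroup.mul_mk]
    have e0 := tr_mul_lt (FreeGroup.mk p) (iv x)
    rw [iv_iv, ← hg] at e0
    rw [e0, Cr_compl_left] at hc
    apply hc.not_pu
    have e : tr (FreeGroup.mk p) (D (iv x)) = {k : FreeGroup α | (p ++ [iv x]) <+: k.toWord} := by
      ext k
      exact mem_tr_D hr k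
    rw [e, ← h1]
    exact h.pu (by unfold ln at hlt; omega)

/-- the half-spaces crossing `V` -/
def E (V : Set (FreeGroup α)) : Set (FreeGroup α × (α × Bool)) := {p | Cr (tr p.1 (D p.2)) V}

theorem E_finite [Finite α] {V : Set (FreeGroup α)} (h : FC V) : (E V).Finite := by
  obtain ⟨R, hR⟩ := exists_det h
  refine ((finite_ball R).prod (Set.toFinite (Set.univ : Set (α × Bool)))).subset ?_
  rintro ⟨g, x⟩ hg
  exact ⟨(cr_bound hR hg).le, trivial⟩

/-- complexity -/
noncomputable def kap (V : Set (FreeGroup α)) : ℕ := (E V).ncard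

theorem det_of_kap [Finite α] {R k : ℕ} {V W : Set (FreeGroup α)} (hV : Det R V) (hW : FC W)
    (hk : kap W ≤ k) (hc : Cr W V) : Det (R + k + 1) W := by
  apply det_of_step
  intro h x hh hx
  by_contra hne
  set l := h.toWord ++ [x] with hl
  have hr : Red l := by rw [← hx]; exact red_toWord _
  set n := ln h with hn
  have hlen : l.length = n + 1 := by rw [hl, List.length_append]; rfl
  have hcr : ∀ i, R ≤ i → (hi : i < n) →
      (FreeGroup.mk (l.take i), l[i]'(by omega)) ∈ E W := by
    intro i hi hin
    have hil : i < l.length := by omega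
    have e1 : l.take i ++ [l[i]] = l.take (i + 1) := by
      rw [List.take_succ_eq_append_getElem hil]
    have hr' : Red (l.take i ++ [l[i]]) := by
      rw [e1]
      have : Red (l.take (i + 1) ++ l.drop (i + 1)) := by rw [List.take_append_drop]; exact hr
      exact red_append_left this
    have e : tr (FreeGroup.mk (l.take i)) (D (l[i])) = {k : FreeGroup α | l.take (i + 1) <+: k.toWord} := by
      ext k
      rw [← e1]
      exact mem_tr_D hr' k
    show Cr (tr (FreeGroup.mk (l.take i)) (D (l[i]))) W
    have hlt : (l.take (i + 1)).length = i + 1 := by rw [List.length_take]; omega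
    have hm1 : h ∈ {k : FreeGroup α | l.take (i + 1) <+: k.toWord} := by
      rw [Set.mem_ofPred_eq, hl, List.take_append_of_le_length (by unfold ln at hn; omega)]
      exact List.take_prefix _ _
    have hm2 : h * lt x ∈ {k : FreeGroup α | l.take (i + 1) <+: k.toWord} := by
      rw [Set.mem_ofPred_eq, hx]
      exact List.take_prefix _ _
    apply cr_of_not_pu
    · rw [e]
      rintro (h1 | h1)
      · exact hne ⟨fun _ => h1 _ hm2, fun _ => h1 _ hm1⟩
      · exact hne ⟨fun h2 => absurd h2 (h1 _ hm1), fun h2 => absurd h2 (h1 _ hm2)⟩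
    · intro h1
      refine not_cr_of_pu (hV.pu (p := l.take (i + 1)) (by omega)) ?_ hc
      rw [← e]
      exact h1
  -- too many crossings
  have hinj : Set.InjOn (fun i : ℕ => ((FreeGroup.mk (l.take i), l.getD i x) : FreeGroup α × (α × Bool)))
      (Finset.Ico R n : Finset ℕ) := by
    intro i hi j hj hij
    rw [Finset.mem_coe, Finset.mem_Ico] at hi hj
    have h1 : FreeGroup.mk (l.take i) = FreeGroup.mk (l.take j) := congrArg Prod.fst hij
    have hri : ∀ i, Red (l.take i) := by
      intro i
      have : Red (l.take i ++ l.drop i) := by rw [List.take_append_drop]; exact hr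
      exact red_append_left this
    have h2 : l.take i = l.take j := by
      rw [← hri i, ← hri j, h1]
    have h3 := congrArg List.length h2
    rw [List.length_take, List.length_take] at h3
    omega
  have hsub : ((Finset.Ico R n).image
      (fun i : ℕ => ((FreeGroup.mk (l.take i), l.getD i x) : FreeGroup α × (α × Bool))) : Set _) ⊆ E W := by
    intro p hp
    rw [Finset.mem_coe, Finset.mem_image] at hp
    obtain ⟨i, hi, rfl⟩ := hp
    rw [Finset.mem_Ico] at hi
    have := hcr i hi.1 hi.2
    rw [List.getD_eq_getElem _ _ (by omega)]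
    exact this
  have hcard := Set.ncard_le_ncard hsub (E_finite hW)
  rw [Set.ncard_coe_finset, Finset.card_image_of_injOn hinj, Nat.card_Ico] at hcard
  unfold kap at hk
  omega

theorem finite_det [Finite α] (R : ℕ) : {W : Set (FreeGroup α) | Det R W}.Finite := by
  have hfin : {S : Set (FreeGroup α) | S ⊆ {g | ln g ≤ R}}.Finite := (finite_ball R).finite_subsets
  refine Set.Finite.of_finite_image (f := fun W : Set (FreeGroup α) => W ∩ {g | ln g ≤ R})
    (hfin.subset ?_) ?_
  · rintro S ⟨W, -, rfl⟩
    exact Set.inter_subset_right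
  · intro W hW W' hW' hWW
    have key : ∀ g : FreeGroup α, ln g ≤ R → (g ∈ W ↔ g ∈ W') := by
      intro g hg
      have := Set.ext_iff.1 hWW g
      simp only [Set.mem_inter_iff, Set.mem_ofPred_eq, hg, and_true] at this
      exact this
    ext g
    rcases le_total (ln g) R with h | h
    · exact key g h
    · rw [hW g h, hW' g h]
      apply key
      have : Red (g.toWord.take R) := by
        have : Red (g.toWord.take R ++ g.toWord.drop R) := by
          rw [List.take_append_drop]; exact red_toWord g
        exact red_append_left this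
      unfold ln
      rw [this, List.length_take]
      omega

/-- finitely many sets of bounded complexity cross a given one -/
theorem finite_crossing [Finite α] {V : Set (FreeGroup α)} (hV : FC V) (k : ℕ) :
    {W : Set (FreeGroup α) | FC W ∧ kap W ≤ k ∧ Cr W V}.Finite := by
  obtain ⟨R, hR⟩ := exists_det hV
  refine (finite_det (R + k + 1)).subset ?_
  rintro W ⟨h1, h2, h3⟩
  exact det_of_kap hR h1 h2 h3

/-- a leaf of the hull -/
theorem exists_leaf [Finite α] {V : Set (FreeGroup α)} (hV : FC V) (hne : ∃ g, g ∈ V) (hne' : ∃ g, g ∉ V) :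
    ∃ v : FreeGroup α, (∀ x, Pu (tr v (D x)) V) ∨
      ∃ d, Cr (tr v (D d)) V ∧ ∀ x, x ≠ d → Pu (tr v (D x)) V := by
  obtain ⟨R, hR⟩ := exists_det hV
  set I : Set (FreeGroup α) := {v | ¬ Pu {k : FreeGroup α | v.toWord <+: k.toWord} V} with hI
  have hfin : I.Finite := by
    refine (finite_ball R).subset ?_
    intro v hv
    rw [Set.mem_ofPred_eq]
    by_contra hlt
    exact hv (hR.pu (by unfold ln at hlt; omega))
  have hne1 : I.Nonempty := by
    refine ⟨1, ?_⟩
    rw [hI, Set.mem_ofPred_eq]
    obtain ⟨a, ha⟩ := hne
    obtain ⟨b, hb⟩ := hne'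
    rintro (h | h)
    · exact hb (h b (by simp))
    · exact h a (by simp) ha
  obtain ⟨v, hv, hmax⟩ := hfin.exists_maximalFor ln I hne1
  have hA : ∀ x, (v * lt x).toWord = v.toWord ++ [x] → Pu (tr v (D x)) V := by
    intro x hx
    by_contra hc
    have hr : Red (v.toWord ++ [x]) := by rw [← hx]; exact red_toWord _
    have e : tr v (D x) = {k : FreeGroup α | (v.toWord ++ [x]) <+: k.toWord} := by
      ext k
      have := mem_tr_D hr k
      rw [FreeGroup.mk_toWord] at this
      exact this
    rw [e, ← hx] at hc
    have h1 : v * lt x ∈ I := hc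
    have h2 := hmax h1
    have h3 : ln (v * lt x) = ln v + 1 := by unfold ln; rw [hx]; simp
    have h4 := h2 (by omega)
    omega
  refine ⟨v, ?_⟩
  by_cases hall : ∀ x, Pu (tr v (D x)) V
  · left; exact hall
  · right
    push Not at hall
    obtain ⟨d, hd⟩ := hall
    rcases mul_lt_cases v d with h1 | ⟨p, h1, h2⟩
    · exact absurd (hA d h1) hd
    · refine ⟨d, ?_, ?_⟩
      · have hr : Red (p ++ [iv d]) := by rw [← h1]; exact red_toWord _
        have hg : v = FreeGroup.mk p * lt (iv d) := by
          rw [← FreeGroup.mk_toWord (x := v), h1]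
          unfold lt; rw [FreeGroup.mul_mk]
        have e0 := tr_mul_lt (FreeGroup.mk p) (iv d)
        rw [iv_iv, ← hg] at e0
        have e : tr (FreeGroup.mk p) (D (iv d)) = {k : FreeGroup α | v.toWord <+: k.toWord} := by
          ext k
          rw [h1]
          exact mem_tr_D hr k
        apply cr_of_not_pu hd
        rw [e0, compl_compl, e]
        exact hv
      · intro x hx
        rcases mul_lt_cases v x with h3 | ⟨q, h3, h4⟩
        · exact hA x h3
        · exfalso
          apply hx
          rw [h1] at h3
          have := List.append_inj_right' h3 rfl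
          exact (iv_inj (List.cons.inj this).1).symm

end Pool.Agent.Helper43.TP
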