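import Pool.Agent.Helper43.TP.Cone

set_option autoImplicit false

/-!
A closed set of finite coboundary can be chosen determined by a ball of controlled radius.
-/

namespace Pool.Agent.Helper43.TP

variable {α : Type} [DecidableEq α]

/-- the cone of a word -/
def cone (p : List (α × Bool)) : Set (FreeGroup α) := {k | p <+: k.toWord}

theorem red_glue {p t : List (α × Bool)} {x : α × Bool} (h1 : Red (p ++ [x])) (h2 : Red (x :: t)) :
    Red (p ++ x :: t) := by
  induction p with
  | nil => exact h2
  | cons y p ih =>
    rw [List.cons_append, red_cons] at h1 ⊢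
    refine ⟨ih h1.1, ?_⟩
    intro h3
    apply h1.2
    cases p with
    | nil => simpa using h3
    | cons z p => simpa using h3

theorem red_take {l : List (α × Bool)} (h : Red l) (i : ℕ) : Red (l.take i) := by
  have : Red (l.take i ++ l.drop i) := by rw [List.take_append_drop]; exact h
  exact red_append_left this

/-- the surgery -/
def surg (V : Set (FreeGroup α)) (A : List (α × Bool)) (c : FreeGroup α) : Set (FreeGroup α) :=
  {h | (h ∈ cone A ∧ c * h ∈ V) ∨ (h ∉ cone A ∧ h ∈ V)}

theorem mem_surg_in {V : Set (FreeGroup α)} {A : List (α × Bool)} {c h : FreeGroup α} (hh : h ∈ cone A) :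
    h ∈ surg V A c ↔ c * h ∈ V := by
  unfold surg
  rw [Set.mem_ofPred_eq]
  tauto

theorem mem_surg_out {V : Set (FreeGroup α)} {A : List (α × Bool)} {c h : FreeGroup α} (hh : h ∉ cone A) :
    h ∈ surg V A c ↔ h ∈ V := by
  unfold surg
  rw [Set.mem_ofPred_eq]
  tauto

theorem cone_eq {p : List (α × Bool)} {x : α × Bool} (h : Red (p ++ [x])) :
    cone (p ++ [x]) = tr (FreeGroup.mk p) (D x) := by
  ext k
  rw [mem_tr_D h]
  rfl

theorem surg_fc {V : Set (FreeGroup α)} (hV : FC V) {p : List (α × Bool)} {x : α × Bool}
    (h : Red (p ++ [x])) (c : FreeGroup α) : FC (surg V (p ++ [x]) c) := by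
  have h1 : FC (cone (p ++ [x])) := by rw [cone_eq h]; exact (FC_D x).tr _
  have h2 : surg V (p ++ [x]) c = (cone (p ++ [x]) ∩ tr c⁻¹ V) ∪ ((cone (p ++ [x]))ᶜ ∩ V) := by
    ext k
    unfold surg
    simp only [Set.mem_ofPred_eq, Set.mem_union, Set.mem_inter_iff, mem_tr, inv_inv, Set.mem_compl_iff]
  rw [h2]
  exact (h1.inter (hV.tr _)).union (h1.compl.inter hV)

theorem mk_append_singleton (p : List (α × Bool)) (x : α × Bool) :
    FreeGroup.mk (p ++ [x]) = FreeGroup.mk p * lt x := by
  unfold lt; rw [FreeGroup.mul_mk]

/-- the key property of the surgery -/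
theorem surg_suffix {V : Set (FreeGroup α)} {p q : List (α × Bool)} {x : α × Bool}
    (hp : Red (p ++ [x])) (l : List (α × Bool))
    (hty : ∀ s, s <:+ l → (FreeGroup.mk (p ++ [x]) * FreeGroup.mk s ∈ V ↔
      FreeGroup.mk (q ++ [x]) * FreeGroup.mk s ∈ V)) :
    ∀ h : FreeGroup α, (h * FreeGroup.mk l ∈ surg V (p ++ [x]) (FreeGroup.mk q * (FreeGroup.mk p)⁻¹)) ↔
      ((h ∈ cone (p ++ [x]) ∧ (FreeGroup.mk q * (FreeGroup.mk p)⁻¹) * h * FreeGroup.mk l ∈ V) ∨
      (h ∉ cone (p ++ [x]) ∧ h * FreeGroup.mk l ∈ V)) := by
  set c := FreeGroup.mk q * (FreeGroup.mk p)⁻¹ with hc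
  have hca : c * FreeGroup.mk (p ++ [x]) = FreeGroup.mk (q ++ [x]) := by
    rw [hc, mk_append_singleton, mk_append_singleton]; group
  induction l with
  | nil =>
    intro h
    rw [← FreeGroup.one_eq_mk, mul_one, mul_one]
    rfl
  | cons y l ih =>
    intro h
    have ih' := ih (fun s hs => hty s (hs.trans (List.suffix_cons _ _))) (h * lt y)
    have e1 : c * h * (lt y * FreeGroup.mk l) = c * (h * lt y) * FreeGroup.mk l := by
      simp only [mul_assoc]
    rw [mk_cons, ← mul_assoc h, e1, ih']
    by_cases hiff : h ∈ cone (p ++ [x]) ↔ h * lt y ∈ cone (p ++ [x])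
    · by_cases h1 : h ∈ cone (p ++ [x])
      · have h2 := hiff.1 h1
        tauto
      · have h2 : h * lt y ∉ cone (p ++ [x]) := fun h3 => h1 (hiff.2 h3)
        tauto
    · have hadj : ¬ ((FreeGroup.mk p)⁻¹ * h ∈ D x ↔ (FreeGroup.mk p)⁻¹ * h * lt y ∈ D x) := by
        intro h3
        apply hiff
        rw [cone_eq hp, mem_tr, mem_tr, h3, mul_assoc]
      rcases adj hadj with ⟨h3, h4⟩ | ⟨h3, h4⟩
      · -- h = p, y = x
        have h5 : h = FreeGroup.mk p := (inv_mul_eq_one.1 h3).symm
        subst h4
        have h6 : h ∉ cone (p ++ [y]) := by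
          rw [cone_eq hp, mem_tr, h3]; exact one_notMem_D _
        have h7 : h * lt y ∈ cone (p ++ [y]) := by
          by_contra h8; exact hiff ⟨fun h9 => absurd h9 h6, fun h9 => absurd h9 h8⟩
        have h8 : h * lt y = FreeGroup.mk (p ++ [y]) := by rw [h5, mk_append_singleton]
        have h9 := hty l (List.suffix_cons _ _)
        rw [h8] at h7 ⊢
        rw [hca]
        tauto
      · -- h = p x, y = x⁻¹
        have h5 : h = FreeGroup.mk (p ++ [x]) := by
          rw [mk_append_singleton]
          exact inv_mul_eq_iff_eq_mul.1 h3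
        subst h4
        have h6 : h ∈ cone (p ++ [x]) := by
          rw [cone_eq hp, mem_tr, h3]; exact lt_mem_D.2 rfl
        have h7 : h * lt (iv x) ∉ cone (p ++ [x]) := by
          intro h8; exact hiff ⟨fun _ => h8, fun _ => h6⟩
        have h9 := hty (iv x :: l) (List.suffix_refl _)
        rw [← hca, ← h5, mk_cons, ← mul_assoc, e1] at h9
        tauto

/-- the words on whose cones `V` is not constant -/
def act (V : Set (FreeGroup α)) : Set (List (α × Bool)) := {p | Red p ∧ ¬ Pu (cone p) V}

theorem act_finite [Finite α] {V : Set (FreeGroup α)} (hV : FC V) : (act V).Finite := by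
  obtain ⟨R, hR⟩ := exists_det hV
  refine (List.finite_length_le (α × Bool) R).subset ?_
  rintro p ⟨-, hp⟩
  rw [Set.mem_ofPred_eq]
  by_contra hlt
  exact hp (hR.pu (by omega))

theorem act_surg_lt [Finite α] {V : Set (FreeGroup α)} (hV : FC V) {p q : List (α × Bool)} {x : α × Bool}
    (hq : Red (q ++ [x])) (hpq : (p ++ [x]) <+: (q ++ [x])) (hlen : p.length < q.length)
    (ha : p ++ [x] ∈ act V) :
    (act (surg V (p ++ [x]) (FreeGroup.mk q * (FreeGroup.mk p)⁻¹))).ncard < (act V).ncard := by
  classical
  set c := FreeGroup.mk q * (FreeGroup.mk p)⁻¹ with hc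
  set a := p ++ [x] with hadef
  set b := q ++ [x] with hbdef
  have hca : c * FreeGroup.mk a = FreeGroup.mk b := by
    rw [hc, hadef, hbdef, mk_append_singleton, mk_append_singleton]; group
  have hword : ∀ t, Red (a ++ t) → Red (b ++ t) := by
    intro t ht
    have h1 : Red (x :: t) := by
      have : Red (p ++ (x :: t)) := by
        have e : p ++ (x :: t) = a ++ t := by simp [hadef]
        rw [e]; exact ht
      exact red_append_right this
    have := red_glue hq h1
    have e : b ++ t = q ++ (x :: t) := by simp [hbdef]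
    rw [e]; exact this
  have hmul : ∀ t, c * FreeGroup.mk (a ++ t) = FreeGroup.mk (b ++ t) := by
    intro t
    rw [← FreeGroup.mul_mk, ← mul_assoc, hca, FreeGroup.mul_mk]
  set Ψ : List (α × Bool) → List (α × Bool) := fun s =>
    if a <+: s then b ++ s.drop a.length else s with hΨ
  have hΨ1 : ∀ t, Ψ (a ++ t) = b ++ t := by
    intro t
    rw [hΨ]
    simp
  have hΨ2 : ∀ s, ¬ a <+: s → Ψ s = s := by
    intro s hs
    rw [hΨ]
    simp [hs]
  have hab : a <+: b := hpq
  have hnba : ¬ b <+: a := by
    intro h
    have := h.length_le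
    rw [hadef, hbdef, List.length_append, List.length_append] at this
    omega
  have hinj : Function.Injective Ψ := by
    intro s s' hss
    by_cases h1 : a <+: s
    · obtain ⟨t, rfl⟩ := h1
      by_cases h2 : a <+: s'
      · obtain ⟨t', rfl⟩ := h2
        rw [hΨ1, hΨ1] at hss
        rw [List.append_cancel_left hss]
      · rw [hΨ1, hΨ2 _ h2] at hss
        exfalso; apply h2
        rw [← hss]
        exact hab.trans (List.prefix_append _ _)
    · by_cases h2 : a <+: s'
      · obtain ⟨t', rfl⟩ := h2
        rw [hΨ1, hΨ2 _ h1] at hss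
        exfalso; apply h1
        rw [hss]
        exact hab.trans (List.prefix_append _ _)
      · rwa [hΨ2 _ h1, hΨ2 _ h2] at hss
  have hsub : Ψ '' (act (surg V a c)) ⊆ act V \ {a} := by
    rintro _ ⟨s, ⟨hs1, hs2⟩, rfl⟩
    by_cases h1 : a <+: s
    · obtain ⟨t, rfl⟩ := h1
      rw [hΨ1]
      refine ⟨⟨hword t hs1, ?_⟩, ?_⟩
      · intro h2
        apply hs2
        have key : ∀ h ∈ cone (a ++ t), (h ∈ surg V a c ↔ c * h ∈ V) ∧ c * h ∈ cone (b ++ t) := by
          intro h hh
          obtain ⟨t', ht'⟩ := hh
          refine ⟨mem_surg_in ?_, ?_⟩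
          · show a <+: h.toWord
            rw [← ht', List.append_assoc]
            exact List.prefix_append _ _
          · have e : h = FreeGroup.mk (a ++ (t ++ t')) := by
              rw [← FreeGroup.mk_toWord (x := h), ← ht', List.append_assoc]
            have hr : Red (a ++ (t ++ t')) := by
              rw [← List.append_assoc, ht']; exact red_toWord h
            show (b ++ t) <+: (c * h).toWord
            rw [e, hmul, hword _ hr, ← List.append_assoc]
            exact List.prefix_append _ _
        rcases h2 with h2 | h2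
        · left; intro h hh
          exact (key h hh).1.2 (h2 _ (key h hh).2)
        · right; intro h hh hm
          exact h2 _ (key h hh).2 ((key h hh).1.1 hm)
      · intro h2
        rw [Set.mem_singleton_iff] at h2
        apply hnba
        rw [← h2]
        exact List.prefix_append _ _
    · rw [hΨ2 _ h1]
      refine ⟨⟨hs1, ?_⟩, ?_⟩
      · intro h2
        by_cases h3 : s <+: a
        · apply ha.2
          have : ∀ h ∈ cone a, h ∈ cone s := fun h hh => h3.trans hh
          rcases h2 with h2 | h2
          · left; intro h hh; exact h2 h (this h hh)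
          · right; intro h hh; exact h2 h (this h hh)
        · apply hs2
          have key : ∀ h ∈ cone s, (h ∈ surg V a c ↔ h ∈ V) := by
            intro h hh
            apply mem_surg_out
            intro h4
            rcases le_total a.length s.length with h5 | h5
            · exact h1 (List.prefix_of_prefix_length_le h4 hh h5)
            · exact h3 (List.prefix_of_prefix_length_le hh h4 h5)
          rcases h2 with h2 | h2
          · left; intro h hh; exact (key h hh).2 (h2 h hh)
          · right; intro h hh hm; exact h2 h hh ((key h hh).1 hm)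
      · intro h2
        rw [Set.mem_singleton_iff] at h2
        apply h1
        rw [h2]
  have hf := act_finite hV
  rw [← Set.ncard_image_of_injective _ hinj]
  calc (Ψ '' (act (surg V a c))).ncard ≤ (act V \ {a}).ncard :=
        Set.ncard_le_ncard hsub (hf.subset Set.sdiff_subset)
    _ < (act V).ncard := Set.ncard_sdiff_singleton_lt_of_mem ha hf

/-- the normal form of a closed set -/
structure Cl (V : Set (FreeGroup α)) (l : List (α × Bool)) : Prop where
  rc : ∀ h ∈ V, h * FreeGroup.mk l ∈ V
  one : (1 : FreeGroup α) ∉ V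
  w : FreeGroup.mk l ∈ V

/-- the bound -/
def bd (m n : ℕ) : ℕ := m * 2 ^ (n + 1) + 1

theorem exists_bounded [Fintype α] {l : List (α × Bool)} (h : ∃ V : Set (FreeGroup α), FC V ∧ Cl V l) :
    ∃ V : Set (FreeGroup α), Det (bd (Fintype.card (α × Bool)) l.length) V ∧ Cl V l := by
  classical
  have hex : ∃ n, ∃ V : Set (FreeGroup α), FC V ∧ Cl V l ∧ (act V).ncard = n := by
    obtain ⟨V, h1, h2⟩ := h
    exact ⟨_, V, h1, h2, rfl⟩
  obtain ⟨V, hV, hcl, hn⟩ := Nat.find_spec hex
  have hmin : ∀ W : Set (FreeGroup α), FC W → Cl W l → (act V).ncard ≤ (act W).ncard := by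
    intro W h1 h2
    rw [hn]
    exact Nat.find_min' hex ⟨W, h1, h2, rfl⟩
  refine ⟨V, ?_, hcl⟩
  set n := l.length with hndef
  set m := Fintype.card (α × Bool) with hm
  have hbd : ∀ p ∈ act V, p.length < bd m n := by
    intro p hp
    by_contra hlt
    unfold bd at hlt
    set M := m * 2 ^ (n + 1) with hM
    have hplen : M + 1 ≤ p.length := by omega
    have hpa : ∀ i, p.take i ∈ act V := by
      intro i
      refine ⟨red_take hp.1 i, fun h1 => hp.2 ?_⟩
      have : ∀ h ∈ cone p, h ∈ cone (p.take i) := fun h hh => (List.take_prefix i p).trans hh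
      rcases h1 with h1 | h1
      · left; intro h hh; exact h1 h (this h hh)
      · right; intro h hh; exact h1 h (this h hh)
    -- pigeonhole
    let ty : ℕ → (α × Bool) × Finset ℕ := fun i =>
      (p.getD i (p.head (by intro h0; rw [h0] at hplen; simp at hplen)),
        (Finset.range (n + 1)).filter (fun k => FreeGroup.mk (p.take (i + 1)) * FreeGroup.mk (l.drop k) ∈ V))
    have hmaps : ∀ i ∈ Finset.range (M + 1), ty i ∈ (Finset.univ : Finset (α × Bool)) ×ˢ
        (Finset.range (n + 1)).powerset := by
      intro i _
      rw [Finset.mem_product]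
      exact ⟨Finset.mem_univ _, Finset.mem_powerset.2 (Finset.filter_subset _ _)⟩
    have hcard : ((Finset.univ : Finset (α × Bool)) ×ˢ (Finset.range (n + 1)).powerset).card <
        (Finset.range (M + 1)).card := by
      rw [Finset.card_product, Finset.card_univ, Finset.card_powerset, Finset.card_range, Finset.card_range,
        ← hm]
      omega
    obtain ⟨i, hi, j, hj, hij, hty⟩ := Finset.exists_ne_map_eq_of_card_lt_of_maps_to hcard hmaps
    rw [Finset.mem_range] at hi hj
    -- wlog i < j
    have main : ∀ i j, i < j → j < M + 1 → ty i = ty j → False := by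
      intro i j hij hj hty
      have hil : i < p.length := by omega
      have hjl : j < p.length := by omega
      have hx : p[i] = p[j] := by
        have := congrArg Prod.fst hty
        simp only [ty] at this
        rwa [List.getD_eq_getElem _ _ hil, List.getD_eq_getElem _ _ hjl] at this
      have hS := congrArg Prod.snd hty
      simp only [ty] at hS
      have ei : p.take (i + 1) = p.take i ++ [p[i]] := List.take_succ_eq_append_getElem hil
      have ej : p.take (j + 1) = p.take j ++ [p[i]] := by
        rw [hx]; exact List.take_succ_eq_append_getElem hjl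
      have hty' : ∀ s, s <:+ l → (FreeGroup.mk (p.take i ++ [p[i]]) * FreeGroup.mk s ∈ V ↔
          FreeGroup.mk (p.take j ++ [p[i]]) * FreeGroup.mk s ∈ V) := by
        intro s hs
        have es : s = l.drop (l.length - s.length) := (List.suffix_iff_eq_drop.1 hs)
        have := Finset.ext_iff.1 hS (l.length - s.length)
        rw [Finset.mem_filter, Finset.mem_filter, ← es, ei, ej] at this
        have hk : l.length - s.length ∈ Finset.range (n + 1) := by
          rw [Finset.mem_range]; omega
        tauto
      have r1 : Red (p.take i ++ [p[i]]) := by rw [← ei]; exact red_take hp.1 _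
      have r2 : Red (p.take j ++ [p[i]]) := by rw [← ej]; exact red_take hp.1 _
      have hsx := surg_suffix (V := V) (q := p.take j) r1 l hty'
      set c := FreeGroup.mk (p.take j) * (FreeGroup.mk (p.take i))⁻¹ with hc
      set W := surg V (p.take i ++ [p[i]]) c with hW
      have hWfc : FC W := surg_fc hV r1 c
      have h1c : (1 : FreeGroup α) ∉ cone (p.take i ++ [p[i]]) := by
        intro h1
        have h2 : (p.take i ++ [p[i]]) <+: (1 : FreeGroup α).toWord := h1
        have h3 := h2.length_le
        rw [FreeGroup.toWord_one, List.length_append, List.length_singleton, List.length_nil] at h3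
        omega
      have hWcl : Cl W l := by
        refine ⟨?_, ?_, ?_⟩
        · intro h hh
          rw [hsx]
          rcases hh with ⟨h1, h2⟩ | ⟨h1, h2⟩
          · left; exact ⟨h1, hcl.rc _ h2⟩
          · right; exact ⟨h1, hcl.rc _ h2⟩
        · rw [hW, mem_surg_out h1c]; exact hcl.one
        · have := (hsx 1).2 (Or.inr ⟨h1c, by rw [one_mul]; exact hcl.w⟩)
          rwa [one_mul] at this
      have hpre : (p.take i ++ [p[i]]) <+: (p.take j ++ [p[i]]) := by
        rw [← ei, ← ej]
        exact List.take_prefix_take_left (by omega)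
      have h3 : (act W).ncard < (act V).ncard := act_surg_lt hV r2 hpre
        (by rw [List.length_take, List.length_take]; omega) (by rw [← ei]; exact hpa _)
      have h2 := hmin W hWfc hWcl
      omega
    rcases lt_or_gt_of_ne hij with h1 | h1
    · exact main i j h1 hj hty
    · exact main j i h1 hi hty.symm
  apply det_of_step
  intro g x hg hx
  by_contra hc
  have : g.toWord ∈ act V := by
    refine ⟨red_toWord g, ?_⟩
    have m1 : g ∈ cone g.toWord := List.prefix_refl _
    have m2 : g * lt x ∈ cone g.toWord := by
      show g.toWord <+: (g * lt x).toWord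
      rw [hx]; exact List.prefix_append _ _
    rintro (h1 | h1)
    · exact hc ⟨fun _ => h1 _ m2, fun _ => h1 _ m1⟩
    · exact hc ⟨fun h2 => absurd h2 (h1 _ m1), fun h2 => absurd h2 (h1 _ m2)⟩
  have := hbd _ this
  unfold ln at hg
  omega

end Pool.Agent.Helper43.TP
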