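import Pool.Agent.Helper43.TP.Cone

set_option autoImplicit false

/-!
Uncrossing: a closed set of finite coboundary can be chosen nested with all its translates.
-/

namespace Pool.Agent.Helper43.TP

variable {α : Type}

theorem cr_inter {A V V' : Set (FreeGroup α)} (hc : Cr V V') (h : Cr A (V ∩ V')) : Cr A V ∨ Cr A V' := by
  obtain ⟨⟨a, h1, h2⟩, ⟨b, h3, h4⟩, ⟨c, h5, h6⟩, ⟨d, h7, h8⟩⟩ := h
  obtain ⟨-, -, -, ⟨p, p1, p2⟩⟩ := hc
  have h4' : b ∉ V ∨ b ∉ V' := not_and_or.1 h4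
  have h8' : d ∉ V ∨ d ∉ V' := not_and_or.1 h8
  by_cases hp : p ∈ A
  · rcases h8' with h8' | h8'
    · left; exact ⟨⟨a, h1, h2.1⟩, ⟨p, hp, p1⟩, ⟨c, h5, h6.1⟩, ⟨d, h7, h8'⟩⟩
    · right; exact ⟨⟨a, h1, h2.2⟩, ⟨p, hp, p2⟩, ⟨c, h5, h6.2⟩, ⟨d, h7, h8'⟩⟩
  · rcases h4' with h4' | h4'
    · left; exact ⟨⟨a, h1, h2.1⟩, ⟨b, h3, h4'⟩, ⟨c, h5, h6.1⟩, ⟨p, hp, p1⟩⟩
    · right; exact ⟨⟨a, h1, h2.2⟩, ⟨b, h3, h4'⟩, ⟨c, h5, h6.2⟩, ⟨p, hp, p2⟩⟩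

theorem cr_union {A V V' : Set (FreeGroup α)} (hc : Cr V V') (h : Cr A (V ∪ V')) : Cr A V ∨ Cr A V' := by
  have h1 : Cr Vᶜ V'ᶜ := by rw [Cr_compl_left, Cr_compl_right]; exact hc
  have h2 : Cr A (Vᶜ ∩ V'ᶜ) := by
    rw [← Set.compl_union, Cr_compl_right]; exact h
  have := cr_inter h1 h2
  rwa [Cr_compl_right, Cr_compl_right] at this

theorem cr_inter_union {A V V' : Set (FreeGroup α)} (h : Cr A (V ∩ V')) (h' : Cr A (V ∪ V')) :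
    Cr A V ∧ Cr A V' := by
  obtain ⟨⟨a, h1, h2⟩, -, ⟨c, h5, h6⟩, -⟩ := h
  obtain ⟨-, ⟨b, h3, h4⟩, -, ⟨d, h7, h8⟩⟩ := h'
  rw [Set.mem_union, not_or] at h4 h8
  exact ⟨⟨⟨a, h1, h2.1⟩, ⟨b, h3, h4.1⟩, ⟨c, h5, h6.1⟩, ⟨d, h7, h8.1⟩⟩,
    ⟨⟨a, h1, h2.2⟩, ⟨b, h3, h4.2⟩, ⟨c, h5, h6.2⟩, ⟨d, h7, h8.2⟩⟩⟩

/-- right multiplication closure only -/
def RC (V : Set (FreeGroup α)) (w : FreeGroup α) : Prop := ∀ h ∈ V, h * w ∈ V

theorem closed_iff {V : Set (FreeGroup α)} {w : FreeGroup α} :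
    Closed V w ↔ RC V w ∧ ¬ (∀ h, h * w ∈ V → h ∈ V) := by
  unfold Closed RC
  constructor
  · rintro ⟨h1, k, h2, h3⟩
    exact ⟨h1, fun h => h2 (h k h3)⟩
  · rintro ⟨h1, h2⟩
    push Not at h2
    obtain ⟨k, h3, h4⟩ := h2
    exact ⟨h1, k, h4, h3⟩

structure Corners (w : FreeGroup α) (V V' C1 C2 : Set (FreeGroup α)) : Prop where
  fc1 : FC C1
  fc2 : FC C2
  cl1 : Closed C1 w
  cl2 : Closed C2 w
  a1 : ∀ A, Cr A C1 → Cr A V ∨ Cr A V'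
  a2 : ∀ A, Cr A C2 → Cr A V ∨ Cr A V'
  a3 : ∀ A, Cr A C1 → Cr A C2 → Cr A V ∧ Cr A V'
  n1 : ¬ Cr V' C1
  n2 : ¬ Cr V' C2

theorem exists_corners {w : FreeGroup α} {V V' : Set (FreeGroup α)} (h1 : FC V) (h2 : Closed V w)
    (h1' : FC V') (h2' : Closed V' w) (hc : Cr V V') : ∃ C1 C2, Corners w V V' C1 C2 := by
  have r1 : RC (V ∩ V') w := fun h hh => ⟨h2.1 h hh.1, h2'.1 h hh.2⟩
  have r2 : RC (V ∪ V') w := fun h hh => hh.imp (h2.1 h) (h2'.1 h)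
  have hcc : Cr V V'ᶜ := by rw [Cr_compl_right]; exact hc
  have eq1 : V \ V' = V ∩ V'ᶜ := rfl
  have eq2 : (V' \ V)ᶜ = V ∪ V'ᶜ := by
    ext g; simp only [Set.mem_compl_iff, Set.mem_sdiff, Set.mem_union]; tauto
  have b1 : ∀ A, Cr A (V \ V') → Cr A V ∨ Cr A V' := by
    intro A hA
    rw [eq1] at hA
    have := cr_inter hcc hA
    rwa [Cr_compl_right] at this
  have b2 : ∀ A, Cr A (V' \ V) → Cr A V ∨ Cr A V' := by
    intro A hA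
    rw [← Cr_compl_right, eq2] at hA
    have := cr_union hcc hA
    rwa [Cr_compl_right] at this
  have b3 : ∀ A, Cr A (V \ V') → Cr A (V' \ V) → Cr A V ∧ Cr A V' := by
    intro A hA hA'
    rw [← Cr_compl_right, eq2] at hA'
    rw [eq1] at hA
    have := cr_inter_union hA hA'
    rwa [Cr_compl_right] at this
  have n1 : ¬ Cr V' (V \ V') := by
    rintro ⟨⟨a, p1, p2⟩, -⟩
    exact p2.2 p1
  have n2 : ¬ Cr V' (V' \ V) := by
    rintro ⟨-, -, ⟨a, p1, p2⟩, -⟩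
    exact p1 p2.1
  have f1 : FC (V \ V') := h1.inter h1'.compl
  have f2 : FC (V' \ V) := h1'.inter h1.compl
  by_cases s1 : ∀ h, h * w ∈ V ∩ V' → h ∈ V ∩ V'
  · -- the intersection is invariant
    refine ⟨V \ V', V' \ V, f1, f2, ?_, ?_, b1, b2, b3, n1, n2⟩
    · rw [closed_iff]
      refine ⟨fun h hh => ⟨h2.1 h hh.1, fun hw => hh.2 (s1 h ⟨h2.1 h hh.1, hw⟩).2⟩, fun hcon => ?_⟩
      obtain ⟨k, hk1, hk2⟩ := h2.2
      by_cases hk : k * w ∈ V'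
      · exact hk1 (s1 k ⟨hk2, hk⟩).1
      · exact hk1 (hcon k ⟨hk2, hk⟩).1
    · rw [closed_iff]
      refine ⟨fun h hh => ⟨h2'.1 h hh.1, fun hw => hh.2 (s1 h ⟨hw, h2'.1 h hh.1⟩).1⟩, fun hcon => ?_⟩
      obtain ⟨k, hk1, hk2⟩ := h2'.2
      by_cases hk : k * w ∈ V
      · exact hk1 (s1 k ⟨hk, hk2⟩).2
      · exact hk1 (hcon k ⟨hk2, hk⟩).1
  by_cases s2 : ∀ h, h * w ∈ V ∪ V' → h ∈ V ∪ V'
  · -- the union is invariant
    refine ⟨(V \ V')ᶜ, (V' \ V)ᶜ, f1.compl, f2.compl, ?_, ?_, ?_, ?_, ?_, ?_, ?_⟩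
    · rw [closed_iff]
      refine ⟨fun h hh hw => ?_, fun hcon => ?_⟩
      · -- h ∉ V \ V', h w ∈ V \ V'
        have h3 : h ∈ V ∪ V' := s2 h (Or.inl hw.1)
        rcases h3 with h3 | h3
        · by_cases h4 : h ∈ V'
          · exact hw.2 (h2'.1 h h4)
          · exact hh ⟨h3, h4⟩
        · exact hw.2 (h2'.1 h h3)
      · obtain ⟨k, hk1, hk2⟩ := h2'.2
        have h3 : k ∈ V ∪ V' := s2 k (Or.inr hk2)
        rcases h3 with h3 | h3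
        · exact hcon k (fun h4 => h4.2 hk2) ⟨h3, hk1⟩
        · exact hk1 h3
    · rw [closed_iff]
      refine ⟨fun h hh hw => ?_, fun hcon => ?_⟩
      · have h3 : h ∈ V ∪ V' := s2 h (Or.inr hw.1)
        rcases h3 with h3 | h3
        · exact hw.2 (h2.1 h h3)
        · by_cases h4 : h ∈ V
          · exact hw.2 (h2.1 h h4)
          · exact hh ⟨h3, h4⟩
      · obtain ⟨k, hk1, hk2⟩ := h2.2
        have h3 : k ∈ V ∪ V' := s2 k (Or.inl hk2)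
        rcases h3 with h3 | h3
        · exact hk1 h3
        · exact hcon k (fun h4 => h4.2 hk2) ⟨h3, hk1⟩
    · intro A hA; rw [Cr_compl_right] at hA; exact b1 A hA
    · intro A hA; rw [Cr_compl_right] at hA; exact b2 A hA
    · intro A hA hA'; rw [Cr_compl_right] at hA hA'; exact b3 A hA hA'
    · rw [Cr_compl_right]; exact n1
    · rw [Cr_compl_right]; exact n2
  · refine ⟨V ∩ V', V ∪ V', h1.inter h1', h1.union h1', closed_iff.2 ⟨r1, s1⟩, closed_iff.2 ⟨r2, s2⟩,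
      fun A hA => cr_inter hc hA, fun A hA => cr_union hc hA, fun A hA hA' => cr_inter_union hA hA', ?_, ?_⟩
    · rintro ⟨-, -, ⟨a, p1, p2⟩, -⟩
      exact p1 p2.2
    · rintro ⟨-, ⟨a, p1, p2⟩, -, -⟩
      exact p2 (Or.inr p1)

theorem ncard_sub {β : Type} {S1 S2 T1 T2 : Set β} (hT1 : T1.Finite) (hT2 : T2.Finite)
    (h1 : S1 ⊆ T1 ∪ T2) (h2 : S2 ⊆ T1 ∪ T2) (h3 : S1 ∩ S2 ⊆ T1 ∩ T2) :
    S1.ncard + S2.ncard ≤ T1.ncard + T2.ncard := by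
  have hf := hT1.union hT2
  have f1 := hf.subset h1
  have f2 := hf.subset h2
  rw [← Set.ncard_union_add_ncard_inter S1 S2 f1 f2, ← Set.ncard_union_add_ncard_inter T1 T2 hT1 hT2]
  exact add_le_add (Set.ncard_le_ncard (Set.union_subset h1 h2) hf)
    (Set.ncard_le_ncard h3 (hT1.inter_of_left _))

theorem ncard_sub_lt {β : Type} {S1 S2 T1 T2 : Set β} (hT1 : T1.Finite) (hT2 : T2.Finite)
    (h1 : S1 ⊆ T1 ∪ T2) (h2 : S2 ⊆ T1 ∪ T2) (h3 : S1 ∩ S2 ⊆ T1 ∩ T2) {a : β} (ha : a ∈ T1)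
    (ha1 : a ∉ S1) (ha2 : a ∉ S2) :
    S1.ncard + S2.ncard < T1.ncard + T2.ncard := by
  have hf := hT1.union hT2
  have f1 := hf.subset h1
  have f2 := hf.subset h2
  rw [← Set.ncard_union_add_ncard_inter S1 S2 f1 f2, ← Set.ncard_union_add_ncard_inter T1 T2 hT1 hT2]
  refine add_lt_add_of_lt_of_le (Set.ncard_lt_ncard ?_ hf)
    (Set.ncard_le_ncard h3 (hT1.inter_of_left _))
  refine ⟨Set.union_subset h1 h2, fun h => ?_⟩
  rcases h (Or.inl ha) with h4 | h4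
  · exact ha1 h4
  · exact ha2 h4

variable [DecidableEq α]

theorem kap_tr (g : FreeGroup α) (V : Set (FreeGroup α)) : kap (tr g V) = kap V := by
  unfold kap
  have : E (tr g V) = (fun p : FreeGroup α × (α × Bool) => (g * p.1, p.2)) '' E V := by
    ext ⟨h, x⟩
    constructor
    · intro hh
      refine ⟨(g⁻¹ * h, x), ?_, by simp⟩
      show Cr (tr (g⁻¹ * h) (D x)) V
      rw [← Cr_tr g, tr_tr, mul_inv_cancel_left]
      exact hh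
    · rintro ⟨⟨k, y⟩, hk, he⟩
      rw [Prod.mk.injEq] at he
      obtain ⟨rfl, rfl⟩ := he
      show Cr (tr (g * k) (D y)) (tr g V)
      rw [← tr_tr, Cr_tr]
      exact hk
  rw [this]
  apply Set.ncard_image_of_injective
  rintro ⟨a, x⟩ ⟨b, y⟩ h
  simp only [Prod.mk.injEq, mul_right_inj] at h
  exact Prod.ext h.1 h.2

/-- the closed sets of minimal complexity -/
def MM (w : FreeGroup α) (k : ℕ) : Set (Set (FreeGroup α)) := {W | FC W ∧ Closed W w ∧ kap W = k}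

theorem exists_nested [Finite α] {w : FreeGroup α} (h : ∃ V : Set (FreeGroup α), FC V ∧ Closed V w) :
    ∃ V : Set (FreeGroup α), FC V ∧ Closed V w ∧ ∀ g, ¬ Cr (tr g V) V := by
  -- minimal complexity
  obtain ⟨V0, hV0, hV0'⟩ := h
  have hex : ∃ k, ∃ V : Set (FreeGroup α), FC V ∧ Closed V w ∧ kap V = k := ⟨_, V0, hV0, hV0', rfl⟩
  classical
  set k := Nat.find hex with hk
  obtain ⟨V1, hV1, hV1', hV1k⟩ := Nat.find_spec hex
  have hmin : ∀ V : Set (FreeGroup α), FC V → Closed V w → k ≤ kap V :=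
    fun V h1 h2 => Nat.find_min' hex ⟨V, h1, h2, rfl⟩
  set μ : Set (FreeGroup α) → ℕ := fun V => Set.ncard {W | W ∈ MM w k ∧ Cr W V} with hμ
  have hfin : ∀ V : Set (FreeGroup α), FC V → {W | W ∈ MM w k ∧ Cr W V}.Finite := by
    intro V hV
    refine (finite_crossing hV k).subset ?_
    rintro W ⟨⟨h1, h2, h3⟩, h4⟩
    exact ⟨h1, h3.le, h4⟩
  have hex2 : ∃ n, ∃ V ∈ MM w k, μ V = n := ⟨_, V1, ⟨hV1, hV1', hV1k⟩, rfl⟩
  obtain ⟨V, hVM, hVn⟩ := Nat.find_spec hex2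
  have hmin2 : ∀ W ∈ MM w k, μ V ≤ μ W := fun W hW => by
    rw [hVn]
    exact Nat.find_min' hex2 ⟨W, hW, rfl⟩
  refine ⟨V, hVM.1, hVM.2.1, fun g hg => ?_⟩
  set V' := tr g V with hV'
  have hV'M : V' ∈ MM w k := ⟨hVM.1.tr g, hVM.2.1.tr g, by rw [hV', kap_tr]; exact hVM.2.2⟩
  have hμ' : μ V' = μ V := by
    show Set.ncard {W | W ∈ MM w k ∧ Cr W V'} = Set.ncard {W | W ∈ MM w k ∧ Cr W V}
    have : {W | W ∈ MM w k ∧ Cr W V'} = (fun W => tr g W) '' {W | W ∈ MM w k ∧ Cr W V} := by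
      ext W
      constructor
      · rintro ⟨⟨h1, h2, h3⟩, h4⟩
        refine ⟨tr g⁻¹ W, ⟨⟨h1.tr _, h2.tr _, by rw [kap_tr]; exact h3⟩, ?_⟩, by simp [tr_tr]⟩
        rw [← Cr_tr g, tr_tr]
        simpa using h4
      · rintro ⟨W, ⟨⟨h1, h2, h3⟩, h4⟩, rfl⟩
        refine ⟨⟨h1.tr _, h2.tr _, by show kap (tr g W) = k; rw [kap_tr]; exact h3⟩, ?_⟩
        show Cr (tr g W) V'
        rw [hV', Cr_tr]
        exact h4
    rw [this]
    apply Set.ncard_image_of_injective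
    intro A B hAB
    have := congrArg (tr g⁻¹) hAB
    simpa [tr_tr] using this
  obtain ⟨C1, C2, hC⟩ := exists_corners hVM.1 hVM.2.1 hV'M.1 hV'M.2.1 hg.symm
  -- complexity
  have hsum : kap C1 + kap C2 ≤ kap V + kap V' := by
    unfold kap
    refine ncard_sub (E_finite hVM.1) (E_finite hV'M.1) ?_ ?_ ?_
    · rintro p hp; exact hC.a1 _ hp
    · rintro p hp; exact hC.a2 _ hp
    · rintro p ⟨hp, hp'⟩; exact hC.a3 _ hp hp'
  have e1 : kap V = k := hVM.2.2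
  have e2 : kap V' = k := hV'M.2.2
  have e3 := hmin C1 hC.fc1 hC.cl1
  have e4 := hmin C2 hC.fc2 hC.cl2
  have hC1 : C1 ∈ MM w k := ⟨hC.fc1, hC.cl1, by omega⟩
  have hC2 : C2 ∈ MM w k := ⟨hC.fc2, hC.cl2, by omega⟩
  have hlt : μ C1 + μ C2 < μ V + μ V' := by
    refine ncard_sub_lt (a := V') (hfin V hVM.1) (hfin V' hV'M.1) ?_ ?_ ?_ ⟨hV'M, hg⟩ ?_ ?_
    · rintro W ⟨h1, h2⟩
      rcases hC.a1 W h2 with h | h
      · left; exact ⟨h1, h⟩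
      · right; exact ⟨h1, h⟩
    · rintro W ⟨h1, h2⟩
      rcases hC.a2 W h2 with h | h
      · left; exact ⟨h1, h⟩
      · right; exact ⟨h1, h⟩
    · rintro W ⟨⟨h1, h2⟩, -, h3⟩
      have := hC.a3 W h2 h3
      exact ⟨⟨h1, this.1⟩, ⟨h1, this.2⟩⟩
    · rintro ⟨-, h⟩; exact hC.n1 h
    · rintro ⟨-, h⟩; exact hC.n2 h
  have e5 := hmin2 C1 hC1
  have e6 := hmin2 C2 hC2
  omega

end Pool.Agent.Helper43.TP
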